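import Pool.Agent.H74.OLP.Targets2

/-!
# Locally planar cubic graphs: HFA, NUM
-/

set_option autoImplicit false
set_option linter.unusedSectionVars false
open scoped Classical
open Finset

namespace Pool.Agent.H74.OLP

theorem pf_NUM (h1 : T_FAM) (h2 : T_OMG) (h3 : T_DIM) (h4 : T_CSD) : T_NUM := by
  intro V E F _ _ _ M hM hSF hV hF hG hT k hk n N c hFam
  obtain ⟨θ, Φ, hFC⟩ := h1 V E F M hM hSF n N c hFam
  obtain ⟨o1, o2, o3⟩ := h2 V E F M hM hSF n N c θ Φ hFam hFC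
  exact h3 V E F M hM hV hF hG hT k hk n (fun i => om M i Φ)
    (fun i => M.ch (Set.range (c i)))
    (fun i hi => ⟨o1 i hi.le, (h4 V E F M hM hSF _ _ (hFam.cyc i hi)).2.1, o3 i hi⟩)
    (fun i hi j hj => o2 i hi.le j hj)

theorem pf_HFA (h1 : T_FON) (h2 : T_WZT) (h3 : T_POT) (h4 : T_CSD) : T_HFA := by
  intro V E F _ _ _ M hM hSF n N c θ Φ hFam hFC ω hω hωc A B hcA hAB hadj hA hB hnull
  obtain ⟨h, hh⟩ := h3 F M.T _ _ (lift_sy M _) hnull
  have hB' : ∃ x, ∃ p : M.T.Walk x x, (∀ y ∈ p.support, y ∈ B) ∧ ws M.T (M.lift ω) p = 1 := by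
    unfold Null at hB
    push Not at hB
    obtain ⟨x, p, hp, hne⟩ := hB
    exact ⟨x, p, hp, (Rne _).mp hne⟩
  obtain ⟨x, p, hp, hone⟩ := hB'
  obtain ⟨y, hy1, hy2, hy3⟩ := h2 V E F M hM hSF x p
  have hcs : ∀ j < n, ∀ D, cs (M.lift D) (N j) (c j) =
      CMap.dot D (M.ch (Set.range (c j))) := fun j hj D =>
    (h4 V E F M hM hSF _ _ (hFam.cyc j hj)).1 D
  refine h1 V E F M hM n (fun j => M.ch (Set.range (c j))) Φ θ (fun j hj => hFC.cor j hj)
    (fun j hj l hl => hFC.del j hj l hl) A B ?_ ?_ hAB ?_ ?_ ω hω hωc y hy1 ?_ ?_ h ?_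
  · intro e he
    exact hadj _ he _ (T_adj_of_edge M hM e)
  · intro e he
    exact hadj _ he _ (T_adj_of_edge M hM e).symm
  · intro j hj e he
    unfold CMap.ch at he
    have : M.l e ∈ Set.range (c j) ∧ M.r e ∈ Set.range (c j) := by
      by_contra hcon
      rw [if_neg hcon] at he
      exact he rfl
    obtain ⟨⟨a, ha⟩, b, hb⟩ := this
    exact ⟨ha ▸ hcA j hj a, hb ▸ hcA j hj b⟩
  · intro D hD hD'
    obtain ⟨g, hg⟩ := h3 F M.T _ _ (lift_sy M _)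
      (hA D hD fun j hj => by rw [hcs j hj]; exact hD' j hj)
    refine ⟨g, fun e hl hr => ?_⟩
    rw [← lift_eq' M hSF D e]
    exact hg _ hl _ hr (T_adj_of_edge M hM e)
  · intro e he
    exact ⟨hp _ (hy2 e he).1, hp _ (hy2 e he).2⟩
  · rw [hy3, hone]
  · intro e hl hr
    rw [← lift_eq' M hSF ω e]
    exact hh _ hl _ hr (T_adj_of_edge M hM e)

end Pool.Agent.H74.OLP
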