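import Pool.Agent.H74.OLP.Targets2

/-!
# Locally planar cubic graphs: STP
-/

set_option autoImplicit false
set_option linter.unusedSectionVars false
open scoped Classical
open Finset

namespace Pool.Agent.H74.OLP

theorem pf_STP (h1 : T_FAM) (h2 : T_OMG) (h3 : T_POT) (h4 : T_END) (h5 : T_HFA) (h6 : T_SGR)
    (h7 : T_CSD) : T_STP := by
  intro V E F _ _ _ M hM hSF hQ4 hArc hwalk w hSh n t S N c hSt htw hnt
  obtain ⟨θ, Φ, hFC⟩ := h1 V E F M hM hSF n N c hSt.toFam
  obtain ⟨o1, o2, o3⟩ := h2 V E F M hM hSF n N c θ Φ hSt.toFam hFC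
  by_cases hnull : Null M.T (M.lift (om M n Φ)) Set.univ
  · left
    obtain ⟨g, hg⟩ := h3 F M.T _ _ (lift_sy M _) hnull
    refine h4 V E F M hM hSF n N c θ Φ hSt.toFam hFC ⟨g, fun e => ?_⟩
    rw [← lift_eq' M hSF (om M n Φ) e]
    exact hg _ (Set.mem_univ _) _ (Set.mem_univ _) (T_adj_of_edge M hM e)
  right
  set DD : Set (F → F → R) := {D' | ∃ D, M.ZG D ∧
    (∀ j < n, cs (M.lift D) (N j) (c j) = 0) ∧ D' = M.lift D} with hDD
  have hcs : ∀ j < n, ∀ D, cs (M.lift D) (N j) (c j) =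
      CMap.dot D (M.ch (Set.range (c j))) := fun j hj D =>
    (h7 V E F M hM hSF _ _ (hSt.cyc j hj)).1 D
  have hom : M.lift (om M n Φ) ∈ DD :=
    ⟨om M n Φ, o1 n le_rfl, fun j hj => by rw [hcs j hj]; exact o2 n le_rfl j hj, rfl⟩
  obtain ⟨S', N0, c0, hSS', hcon, hcyc, hodd, hone, hpos, hgood⟩ :=
    h6 F M.T DD (M.lift (om M n Φ)) w t n S hwalk hQ4 hArc
      (by rintro D ⟨D, hD, -, rfl⟩; exact hSh D hD) hom htw hnt hSt.ne hSt.con
      (by rintro D ⟨D, hD, hD', rfl⟩; exact hSt.good D hD hD') hnull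
      (by
        intro A B hA hAB hadj hNA hB
        refine h5 V E F M hM hSF n N c θ Φ hSt.toFam hFC (om M n Φ) (o1 n le_rfl)
          (fun j hj => o2 n le_rfl j hj) A B ?_ hAB hadj ?_ hB
        · intro j hj x
          exact hA (Nb_mono M.T (by omega) le_rfl (hSt.near j hj x))
        · intro D hD hD'
          exact hNA _ ⟨D, hD, hD', rfl⟩)
  -- old cycles are far from the new one
  have hfar : ∀ j < n, ∀ x y, c0 x ≠ c j y ∧ ¬ M.T.Adj (c0 x) (c j y) := by
    intro j hj x y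
    have hy := hSt.near j hj y
    refine ⟨fun h => (hpos x).2 ?_, fun h => (hpos x).2 ?_⟩
    · rw [h]; exact Nb_mono M.T (by omega) le_rfl hy
    · have := Nb_adj M.T hy h.symm
      exact Nb_mono M.T (by omega) le_rfl this
  set N' : ℕ → ℕ := fun j => if j < n then N j else N0 with hN'
  set c' : ℕ → ℤ → F := fun j => if j < n then c j else c0 with hc'
  have e1 : ∀ j < n, N' j = N j ∧ c' j = c j := fun j hj => by simp [hN', hc', hj]
  have e2 : N' n = N0 ∧ c' n = c0 := by simp [hN', hc']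
  have hlift : ∀ x, M.lift (om M n Φ) (c0 x) (c0 (x + 1)) = M.lift M.D1 (c0 x) (c0 (x + 1)) := by
    intro x
    have hadj : M.T.Adj (c0 x) (c0 (x + 1)) := (hcyc.adj _ _).mpr (Or.inr (by simp))
    obtain ⟨-, e, he⟩ := hadj
    rw [lift_eq M hSF _ he, lift_eq M hSF _ he]
    unfold om
    rw [Finset.sum_eq_zero, add_zero]
    intro j hj
    rw [Finset.mem_range] at hj
    have hl : ∀ f, (f = M.l e ∨ f = M.r e) → f ∉ Set.range (c j) := by
      rintro f hf ⟨y, hy⟩
      have : f = c0 x ∨ f = c0 (x + 1) := by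
        rw [Sym2.eq_iff] at he
        rcases he with ⟨a, b⟩ | ⟨a, b⟩ <;> rcases hf with rfl | rfl <;> simp [a, b]
      rcases this with h | h
      · exact (hfar j hj x y).1 (h ▸ hy.symm)
      · exact (hfar j hj (x + 1) y).1 (h ▸ hy.symm)
    exact hFC.off j hj e (hl _ (Or.inl rfl)) (hl _ (Or.inr rfl))
  refine ⟨S', N', c', fun t' ht' => ?_⟩
  refine St.mk (Fam.mk ?_ ?_ ?_ ?_) (hSt.ne.mono hSS') hcon ?_ ?_
  · intro j hj
    rcases Nat.lt_succ_iff_lt_or_eq.mp hj with h | rfl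
    · rw [(e1 j h).1, (e1 j h).2]; exact hSt.cyc j h
    · rw [e2.1, e2.2]; exact hcyc
  · intro j hj
    rcases Nat.lt_succ_iff_lt_or_eq.mp hj with h | rfl
    · rw [(e1 j h).1]; exact hSt.odd j h
    · rw [e2.1]; exact hodd
  · intro j hj
    rcases Nat.lt_succ_iff_lt_or_eq.mp hj with h | rfl
    · rw [(e1 j h).1, (e1 j h).2]; exact hSt.one j h
    · rw [e2.1, e2.2, ← hone]
      unfold cs
      exact Finset.sum_congr rfl fun i _ => (hlift i).symm
  · intro i hi j hj hij x y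
    rcases Nat.lt_succ_iff_lt_or_eq.mp hi with h | rfl <;>
      rcases Nat.lt_succ_iff_lt_or_eq.mp hj with h' | rfl
    · rw [(e1 i h).2, (e1 j h').2]; exact hSt.far i h j h' hij x y
    · rw [(e1 i h).2, e2.2]
      have := hfar i h y x
      exact ⟨this.1.symm, fun h => this.2 h.symm⟩
    · rw [(e1 j h').2, e2.2]; exact hfar j h' x y
    · exact absurd rfl hij
  · intro j hj x
    rcases Nat.lt_succ_iff_lt_or_eq.mp hj with h | rfl
    · rw [(e1 j h).2]; exact Nb_mono M.T (by omega) hSS' (hSt.near j h x)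
    · rw [e2.2]; exact Nb_mono M.T (by omega) le_rfl (hpos x).1
  · intro D hD hD'
    refine hgood _ ⟨D, hD, fun j hj => ?_, rfl⟩ ?_ t' ht'
    · have := hD' j (by omega)
      rwa [(e1 j hj).1, (e1 j hj).2] at this
    · have := hD' n (by omega)
      rwa [e2.1, e2.2] at this

end Pool.Agent.H74.OLP
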