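import Pool.Agent.H11.OLP.NB0
import Pool.Agent.H13.OLP.PHI
import Pool.Agent.H14.OLP.TAI
import Pool.Agent.H14.OLP.TLP
import Pool.Agent.H17.OLP.SYM
import Pool.Agent.H17.OLP.TT
import Pool.Agent.H20.OLP.LFI
import Pool.Agent.H36.OLP.DFI
import Pool.Agent.H40.OLP.END
import Pool.Agent.H40.OLP.FAM
import Pool.Agent.H42.OLP.EXT
import Pool.Agent.H42.OLP.POT
import Pool.Agent.H46.OLP.COV
import Pool.Agent.H49.OLP.GEO
import Pool.Agent.H49.OLP.MKC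
import Pool.Agent.H49.OLP.NBH
import Pool.Agent.H49.OLP.OTH
import Pool.Agent.H49.OLP.RPL
import Pool.Agent.H49.OLP.SDF
import Pool.Agent.H49.OLP.SPL
import Pool.Agent.H49.OLP.TO
import Pool.Agent.H49.OLP.ZZ
import Pool.Agent.H5.OLP.MCW
import Pool.Agent.H51.OLP.ODC
import Pool.Agent.H52.OLP.CSZ
import Pool.Agent.H52.OLP.CTH
import Pool.Agent.H52.OLP.CZZ
import Pool.Agent.H52.OLP.ECT
import Pool.Agent.H52.OLP.ZTF
import Pool.Agent.H54.OLP.CUT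
import Pool.Agent.H54.OLP.PCY
import Pool.Agent.H57.OLP.DUA
import Pool.Agent.H57.OLP.LNK
import Pool.Agent.H57.OLP.NBR
import Pool.Agent.H59.OLP.MAIN
import Pool.Agent.H59.OLP.MAP
import Pool.Agent.H59.OLP.SLF
import Pool.Agent.H60.OLP.WIN
import Pool.Agent.H60.OLP.WZT
import Pool.Agent.H62.OLP.MNM
import Pool.Agent.H67.OLP.PAI
import Pool.Agent.H68.OLP.CLS
import Pool.Agent.H7.OLP.MTR
import Pool.Agent.H7.OLP.SGR
import Pool.Agent.H70.OLP.ZGV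
import Pool.Agent.H72.OLP.CNG
import Pool.Agent.H73.OC.Fin
import Pool.Agent.H74.OLP.HFA
import Pool.Agent.H74.OLP.STP
import Pool.Agent.H79.OLP.MCY
import Pool.Agent.H79.OLP.OMG
import Pool.Agent.H80.OLP.NBE
import Pool.Agent.H81.OLP.CSD
import Pool.Agent.H81.OLP.DIM
import Pool.Agent.H81.OLP.FON
import Pool.Agent.H85.OLP.DIR
import Pool.Agent.H88.OLP.FRM
import Pool.Agent.H88.OLP.GDS
import Pool.Agent.H89.OLP.CFO
import Pool.Agent.H91.OLP.A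

/-!
# Oriented cycle double covers of locally planar cubic graphs: assembly
-/

set_option autoImplicit false

namespace Pool.Agent.H74.OLP

theorem a_MCY : T_MCY := Pool.Agent.H79.OLP.pf_MCY

theorem a_MTR : T_MTR := Pool.Agent.H7.OLP.pf_MTR

theorem a_MAP : T_MAP := Pool.Agent.H59.OLP.pf_MAP a_MCY a_MTR

theorem a_CSZ : T_CSZ := Pool.Agent.H52.OLP.pf_CSZ

theorem a_CLS : T_CLS := Pool.Agent.H68.OLP.pf_CLS a_CSZ

theorem a_NBE : T_NBE := Pool.Agent.H80.OLP.pf_NBE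

theorem a_SFF : T_SFF := Pool.Agent.H72.OLP.pf_SFF a_CLS a_NBE

theorem a_CTH : T_CTH := Pool.Agent.H52.OLP.pf_CTH a_CLS a_NBE

theorem a_CFO : T_CFO := Pool.Agent.H89.OLP.pf_CFO a_CLS a_NBE a_SFF

theorem a_DFI : T_DFI := Pool.Agent.H36.OLP.pf_DFI

theorem a_NBR : T_NBR := Pool.Agent.H57.OLP.pf_NBR

theorem a_LNK : T_LNK := Pool.Agent.H57.OLP.pf_LNK

theorem a_MCW : T_MCW := Pool.Agent.H5.OLP.pf_MCW

theorem a_ZGV : T_ZGV := Pool.Agent.H70.OLP.pf_ZGV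

theorem a_PAI : T_PAI := Pool.Agent.H67.OLP.pf_PAI a_ZGV

theorem a_CUT : T_CUT := Pool.Agent.H54.OLP.pf_CUT a_MCW a_PAI

theorem a_CNG : T_CNG := Pool.Agent.H72.OLP.pf_CNG

theorem a_CNF : T_CNF := Pool.Agent.H72.OLP.pf_CNF

theorem a_DIR : T_DIR := Pool.Agent.H85.OLP.pf_DIR a_ZGV

theorem a_COV : T_COV := Pool.Agent.H46.OLP.pf_COV a_DIR

theorem a_PCY : T_PCY := Pool.Agent.H54.OLP.pf_PCY

theorem a_KAP : T_KAP := Pool.Agent.H54.OLP.pf_KAP a_PCY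

theorem a_END : T_END := Pool.Agent.H40.OLP.pf_END a_COV a_KAP

theorem a_POT : T_POT := Pool.Agent.H42.OLP.pf_POT

theorem a_MKC : T_MKC := Pool.Agent.H49.OLP.pf_MKC

theorem a_SHC : T_SHC := Pool.Agent.H91.OLP.pf_SHC a_MCW a_MKC

theorem a_CSD : T_CSD := Pool.Agent.H81.OLP.pf_CSD

theorem a_ECT : T_ECT := Pool.Agent.H52.OLP.pf_ECT

theorem a_EXT : T_EXT := Pool.Agent.H42.OLP.pf_EXT

theorem a_NB0 : T_NB0 := Pool.Agent.H11.OLP.pf_NB0 a_EXT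

theorem a_ZTF : T_ZTF := Pool.Agent.H52.OLP.pf_ZTF

theorem a_PHI : T_PHI := Pool.Agent.H13.OLP.pf_PHI a_ZTF a_PCY

theorem a_CZZ : T_CZZ := Pool.Agent.H52.OLP.pf_CZZ a_ZGV a_ZTF

theorem a_SLF : T_SLF := Pool.Agent.H59.OLP.pf_SLF a_DIR

theorem a_FAM : T_FAM := Pool.Agent.H40.OLP.pf_FAM a_PHI a_CZZ a_CSD a_SLF

theorem a_OMG : T_OMG := Pool.Agent.H79.OLP.pf_OMG a_CSD a_DIR

theorem a_DUA : T_DUA := Pool.Agent.H57.OLP.pf_DUA a_ZGV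

theorem a_SYM : T_SYM := Pool.Agent.H17.OLP.pf_SYM a_ZGV

theorem a_FON : T_FON := Pool.Agent.H81.OLP.pf_FON a_PHI a_DUA a_CZZ a_SYM a_PAI a_ZGV

theorem a_WZT : T_WZT := Pool.Agent.H60.OLP.pf_WZT

theorem a_HFA : T_HFA := Pool.Agent.H74.OLP.pf_HFA a_FON a_WZT a_POT a_CSD

theorem a_TLP : T_TLP := Pool.Agent.H14.OLP.pf_TLP a_EXT

theorem a_TAI : T_TAI := Pool.Agent.H14.OLP.pf_TAI a_POT a_TLP

theorem a_GEO : T_GEO := Pool.Agent.H49.OLP.pf_GEO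

theorem a_GDS : T_GDS := Pool.Agent.H88.OLP.pf_GDS a_EXT a_GEO

theorem a_NBH : T_NBH := Pool.Agent.H49.OLP.pf_NBH a_GEO

theorem a_OTH : T_OTH := Pool.Agent.H49.OLP.pf_OTH a_GEO

theorem a_CWK : T_CWK := Pool.Agent.H91.OLP.pf_CWK

theorem a_KE1 : T_KE1 := Pool.Agent.H91.OLP.pf_KE1 a_SHC a_OTH a_CWK

theorem a_CSI : T_CSI := Pool.Agent.H91.OLP.pf_CSI

theorem a_WIN : T_WIN := Pool.Agent.H60.OLP.pf_WIN a_CSI

theorem a_KE2 : T_KE2 := Pool.Agent.H91.OLP.pf_KE2 a_OTH a_NBH a_WIN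

theorem a_FRM : T_FRM := Pool.Agent.H88.OLP.pf_FRM

theorem a_SDF : T_SDF := Pool.Agent.H49.OLP.pf_SDF

theorem a_SPL : T_SPL := Pool.Agent.H49.OLP.pf_SPL

theorem a_TO : T_TO := Pool.Agent.H49.OLP.pf_TO a_SPL a_SDF

theorem a_TT : T_TT := Pool.Agent.H17.OLP.pf_TT a_SPL a_SDF

theorem a_ZZ : T_ZZ := Pool.Agent.H49.OLP.pf_ZZ a_SPL a_SDF

theorem a_ARI : T_ARI := Pool.Agent.H91.OLP.pf_ARI

theorem a_PAR : T_PAR := Pool.Agent.H91.OLP.pf_PAR a_FRM a_SDF a_TO a_TT a_ZZ a_ARI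

theorem a_RPL : T_RPL := Pool.Agent.H49.OLP.pf_RPL a_MKC

theorem a_ODC : T_ODC := Pool.Agent.H51.OLP.pf_ODC a_PAR a_RPL

theorem a_SGR : T_SGR := Pool.Agent.H7.OLP.pf_SGR a_POT a_TAI a_GEO a_GDS a_NBH a_KE1 a_KE2 a_ODC

theorem a_STP : T_STP := Pool.Agent.H74.OLP.pf_STP a_FAM a_OMG a_POT a_END a_HFA a_SGR a_CSD

theorem a_DIM : T_DIM := Pool.Agent.H81.OLP.pf_DIM a_ECT a_PAI

theorem a_NUM : T_NUM := Pool.Agent.H74.OLP.pf_NUM a_FAM a_OMG a_DIM a_CSD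

theorem a_MNM : T_MNM := Pool.Agent.H62.OLP.pf_MNM a_SFF a_CTH a_CFO a_DFI a_NBR a_LNK a_CUT a_CNG a_CNF a_END a_POT a_SHC a_CSD a_ECT a_NB0 a_STP a_NUM a_DIR

theorem a_LFI : T_LFI := Pool.Agent.H20.OLP.pf_LFI

theorem a_MAIN : T_MAIN := Pool.Agent.H59.OLP.pf_MAIN a_MAP a_MNM a_LFI Pool.Agent.H73.OC.t_fin

end Pool.Agent.H74.OLP
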