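import Mathlib

/-!
# Locally planar cubic graphs: definitions

Part G: walks, neighbourhoods, potentials, induced paths and cycles in a graph `T` on the faces.
Part M: cubic maps.
-/

set_option autoImplicit false
set_option linter.unusedSectionVars false
open scoped Classical
open Finset

namespace Pool.Agent.H74.OLP

abbrev R := ZMod 2

/-! ## Graphs -/

section Graph

variable {F : Type} (T : SimpleGraph F)

/-- sum of `D` along a walk -/
def ws (D : F → F → R) : ∀ {u v : F}, T.Walk u v → R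
  | _, _, .nil => 0
  | u, _, @SimpleGraph.Walk.cons _ _ _ v _ _ p => D u v + ws D p

/-- sum of `D` along `z a, …, z b` -/
def fs (D : F → F → R) (z : ℕ → F) (a b : ℕ) : R := ∑ i ∈ Finset.Ico a b, D (z i) (z (i + 1))

/-- `D` is symmetric -/
def Sy (D : F → F → R) : Prop := ∀ x y, D x y = D y x

/-- `D` is symmetric and has sum 0 on the triangles of `T` -/
def Tri (D : F → F → R) : Prop := Sy D ∧
  ∀ x y z, T.Adj x y → T.Adj y z → T.Adj z x → D x y + D y z + D z x = 0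

/-- `D` is symmetric and has sum 0 on the closed walks of length less than `w` -/
def Sh (w : ℕ) (D : F → F → R) : Prop := Sy D ∧ ∀ x (p : T.Walk x x), p.length < w → ws T D p = 0

/-- the points at distance at most `n` from `S` -/
def Nb (n : ℕ) (S : Set F) : Set F := {x | ∃ s ∈ S, ∃ p : T.Walk s x, p.length ≤ n}

/-- `D` has sum 0 along the closed walks in `X` -/
def Null (D : F → F → R) (X : Set F) : Prop :=
  ∀ x (p : T.Walk x x), (∀ y ∈ p.support, y ∈ X) → ws T D p = 0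

/-- `g` is a potential of `D` on `X` -/
def Pot (D : F → F → R) (X : Set F) (g : F → R) : Prop :=
  ∀ x ∈ X, ∀ y ∈ X, T.Adj x y → D x y = g x + g y

/-- connected sets -/
def Con (S : Set F) : Prop := ∀ x ∈ S, ∀ y ∈ S, ∃ p : T.Walk x y, ∀ z ∈ p.support, z ∈ S

/-- `z 0, …, z n` is a walk -/
def Wf (z : ℕ → F) (n : ℕ) : Prop := ∀ i < n, T.Adj (z i) (z (i + 1))

/-- the points of `z 0, …, z n` -/
def Im (z : ℕ → F) (n : ℕ) : Set F := {x | ∃ i ≤ n, x = z i}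

/-- `z 0, …, z m` is a shortest walk with sum 1 among all closed walks and walks from `S` to `S` -/
structure Mn (S : Set F) (D : F → F → R) (z : ℕ → F) (m : ℕ) : Prop where
  wf : Wf T z m
  z0 : z 0 ∈ S
  zm : z m ∈ S
  one : fs D z 0 m = 1
  minC : ∀ x (p : T.Walk x x), ws T D p = 1 → m ≤ p.length
  minS : ∀ x ∈ S, ∀ y ∈ S, ∀ p : T.Walk x y, ws T D p = 1 → m ≤ p.length

/-- an induced cycle of length `n`, as function on the integers with period `n` -/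
structure ICyc (n : ℕ) (c : ℤ → F) : Prop where
  n4 : 4 ≤ n
  eqv : ∀ i j, c i = c j ↔ (n : ℤ) ∣ i - j
  adj : ∀ i j, T.Adj (c i) (c j) ↔ ((n : ℤ) ∣ i - j - 1 ∨ (n : ℤ) ∣ j - i - 1)

/-- sum of `D` along a cycle -/
def cs (D : F → F → R) (n : ℕ) (c : ℤ → F) : R := ∑ i ∈ Finset.range n, D (c i) (c (i + 1))

/-- an induced path `z 0, …, z L` -/
structure IP (L : ℕ) (z : ℕ → F) : Prop where
  inj : ∀ i j, i ≤ L → j ≤ L → z i = z j → i = j
  adj : ∀ i j, i ≤ L → j ≤ L → (T.Adj (z i) (z j) ↔ (j = i + 1 ∨ i = j + 1))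

/-- every cycle of length four has a chord -/
def Q4 : Prop := ∀ a b c d, T.Adj a b → T.Adj b c → T.Adj c d → T.Adj d a → a ≠ c → b ≠ d →
  T.Adj a c ∨ T.Adj b d

/-- an induced path such that a common neighbour of two of its points forces distance at most 2 -/
structure Pth (L : ℕ) (z : ℕ → F) : Prop extends IP T L z where
  two : ∀ x i j, i ≤ L → j ≤ L → T.Adj x (z i) → T.Adj x (z j) → i ≤ j + 2
  q4 : Q4 T

/-- The neighbours of `f` are `x, c 1, …, c p, y, r q, …, r 1` in cyclic order, and they form an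
induced cycle. -/
structure Arcs (f x y : F) (p : ℕ) (c : ℕ → F) (q : ℕ) (r : ℕ → F) : Prop where
  hp : 1 ≤ p
  hq : 1 ≤ q
  hpq : 3 ≤ p + q
  all : ∀ g, T.Adj f g ↔ (g = x ∨ g = y ∨ (∃ j, 1 ≤ j ∧ j ≤ p ∧ g = c j) ∨
    ∃ j, 1 ≤ j ∧ j ≤ q ∧ g = r j)
  ci : ∀ i j, 1 ≤ i → i ≤ p → 1 ≤ j → j ≤ p → c i = c j → i = j
  cc : ∀ i j, 1 ≤ i → i ≤ p → 1 ≤ j → j ≤ p → (T.Adj (c i) (c j) ↔ (j = i + 1 ∨ i = j + 1))
  cx : ∀ j, 1 ≤ j → j ≤ p → (T.Adj x (c j) ↔ j = 1)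
  cy : ∀ j, 1 ≤ j → j ≤ p → (T.Adj y (c j) ↔ j = p)
  nx : ∀ j, 1 ≤ j → j ≤ p → c j ≠ x
  ny : ∀ j, 1 ≤ j → j ≤ p → c j ≠ y
  ri : ∀ i j, 1 ≤ i → i ≤ q → 1 ≤ j → j ≤ q → r i = r j → i = j
  rr : ∀ i j, 1 ≤ i → i ≤ q → 1 ≤ j → j ≤ q → (T.Adj (r i) (r j) ↔ (j = i + 1 ∨ i = j + 1))
  rx : ∀ j, 1 ≤ j → j ≤ q → (T.Adj x (r j) ↔ j = 1)
  ry : ∀ j, 1 ≤ j → j ≤ q → (T.Adj y (r j) ↔ j = q)
  mx : ∀ j, 1 ≤ j → j ≤ q → r j ≠ x
  my : ∀ j, 1 ≤ j → j ≤ q → r j ≠ y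
  cr : ∀ i j, 1 ≤ i → i ≤ p → 1 ≤ j → j ≤ q → ¬ T.Adj (c i) (r j) ∧ c i ≠ r j

/-- one side of an induced path: `c i 1, …, c i (p i)` are the neighbours of `z i` on this side, in
their order from `z (i - 1)` to `z (i + 1)` -/
structure Side (L : ℕ) (z : ℕ → F) (p : ℕ → ℕ) (c : ℕ → ℕ → F) : Prop where
  pos : ∀ i, 1 ≤ i → i < L → 1 ≤ p i
  adj : ∀ i j, 1 ≤ i → i < L → 1 ≤ j → j ≤ p i → T.Adj (z i) (c i j)
  ci : ∀ i j k, 1 ≤ i → i < L → 1 ≤ j → j ≤ p i → 1 ≤ k → k ≤ p i → c i j = c i k → j = k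
  cc : ∀ i j k, 1 ≤ i → i < L → 1 ≤ j → j ≤ p i → 1 ≤ k → k ≤ p i →
    (T.Adj (c i j) (c i k) ↔ (k = j + 1 ∨ j = k + 1))
  cx : ∀ i j, 1 ≤ i → i < L → 1 ≤ j → j ≤ p i → (T.Adj (z (i - 1)) (c i j) ↔ j = 1)
  cy : ∀ i j, 1 ≤ i → i < L → 1 ≤ j → j ≤ p i → (T.Adj (z (i + 1)) (c i j) ↔ j = p i)
  nx : ∀ i j, 1 ≤ i → i < L → 1 ≤ j → j ≤ p i → c i j ≠ z (i - 1)
  ny : ∀ i j, 1 ≤ i → i < L → 1 ≤ j → j ≤ p i → c i j ≠ z (i + 1)
  lk : ∀ i, 1 ≤ i → i + 1 < L → c i (p i) = c (i + 1) 1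

/-- A move: an induced path `y 0, …, y L'` of length `L + δ` with the same ends and the same sums as
`z 0, …, z L`; its new points are neighbours of `z 3, …, z (L - 3)`. -/
def Mv (L : ℕ) (z : ℕ → F) (δ : ℤ) : Prop := ∃ (L' : ℕ) (y : ℕ → F), IP T L' y ∧ y 0 = z 0 ∧
  y L' = z L ∧ (L' : ℤ) = L + δ ∧ (∀ D, Tri T D → fs D y 0 L' = fs D z 0 L) ∧
  ∀ i ≤ L', (∃ k ≤ L, y i = z k) ∨ ∃ k, 3 ≤ k ∧ k + 3 ≤ L ∧ T.Adj (z k) (y i)

end Graph

/-! ## Maps -/

/-- A map: edges `e` with ends `s e, t e` and faces `l e, r e`; the boundary of the face `f` is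
given by `vt f i` and `ed f i` (`i` an integer, period `d f`). -/
structure CMap (V E F : Type) where
  s : E → V
  t : E → V
  l : E → F
  r : E → F
  d : F → ℕ
  vt : F → ℤ → V
  ed : F → ℤ → E

namespace CMap

variable {V E F : Type} (M : CMap V E F)

/-- `v` is an end of `e` -/
def OnV (e : E) (v : V) : Prop := M.s e = v ∨ M.t e = v

/-- `f` is a face of `e` -/
def OnF (e : E) (f : F) : Prop := M.l e = f ∨ M.r e = f

/-- cubic maps: the boundaries of the faces are cycles, every vertex has three edges and three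
faces -/
structure OK : Prop where
  st : ∀ e, M.s e ≠ M.t e
  lr : ∀ e, M.l e ≠ M.r e
  d3 : ∀ f, 3 ≤ M.d f
  vt_eq : ∀ f i j, M.vt f i = M.vt f j ↔ (M.d f : ℤ) ∣ i - j
  ed_eq : ∀ f i j, M.ed f i = M.ed f j ↔ (M.d f : ℤ) ∣ i - j
  jn : ∀ f i, (M.s (M.ed f i) = M.vt f i ∧ M.t (M.ed f i) = M.vt f (i + 1)) ∨
    (M.t (M.ed f i) = M.vt f i ∧ M.s (M.ed f i) = M.vt f (i + 1))
  on : ∀ e f, M.OnF e f ↔ ∃ i, M.ed f i = e
  tri : ∀ v, ∃ (a b c : E) (x y z : F), a ≠ b ∧ b ≠ c ∧ a ≠ c ∧ x ≠ y ∧ y ≠ z ∧ x ≠ z ∧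
    (∀ e, M.OnV e v ↔ (e = a ∨ e = b ∨ e = c)) ∧ (∀ f, M.OnF a f ↔ (f = y ∨ f = z)) ∧
    (∀ f, M.OnF b f ↔ (f = z ∨ f = x)) ∧ (∀ f, M.OnF c f ↔ (f = x ∨ f = y))

/-- no parallel edges -/
def Par : Prop := ∀ e e', s(M.s e, M.t e) = s(M.s e', M.t e') → e = e'

/-- two faces have at most one common edge -/
def SF : Prop := ∀ e e', s(M.l e, M.r e) = s(M.l e', M.r e') → e = e'

/-- the adjacency graph of the faces -/
def T : SimpleGraph F where
  Adj f g := f ≠ g ∧ ∃ e, s(M.l e, M.r e) = s(f, g)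
  symm := ⟨fun _ _ h => ⟨h.1.symm, h.2.elim fun e he => ⟨e, he.trans Sym2.eq_swap⟩⟩⟩
  loopless := ⟨fun _ h => h.1 rfl⟩

/-- `1` if the face `f` traverses the edge `e` away from its end `v`, `0` otherwise -/
noncomputable def out (f : F) (e : E) (v : V) : R :=
  if ∃ i, M.ed f i = e ∧ M.vt f i = v then 1 else 0

/-- `1` if the two faces of `e` traverse `e` in the same direction -/
noncomputable def D1 (e : E) : R := 1 + M.out (M.l e) e (M.s e) + M.out (M.r e) e (M.s e)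

/-- `D` and `x` come from the corner function `θ` -/
def Cor (θ : V → F → R) (x D : E → R) : Prop := ∀ e,
  θ (M.s e) (M.l e) + θ (M.t e) (M.l e) = x e ∧ θ (M.s e) (M.r e) + θ (M.t e) (M.r e) = x e ∧
  θ (M.s e) (M.l e) + θ (M.s e) (M.r e) = D e ∧ θ (M.t e) (M.l e) + θ (M.t e) (M.r e) = D e

/-- the edges with both faces in `X` -/
noncomputable def ch (X : Set F) (e : E) : R := if M.l e ∈ X ∧ M.r e ∈ X then 1 else 0

/-- labels of the darts: `lam v e` is the label of the dart of `e` leaving `v` -/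
def Lab [Fintype E] : Prop := ∃ lam : V → E → ℕ, (∀ e, lam (M.s e) e ≠ lam (M.t e) e) ∧
  ∀ v k, (univ.filter fun e => (M.s e = v ∨ M.t e = v) ∧ lam v e = k).card =
    (univ.filter fun e => (M.s e = v ∧ lam (M.t e) e = k) ∨
      (M.t e = v ∧ lam (M.s e) e = k)).card

section Fin

variable [Fintype V] [Fintype E] [Fintype F]

/-- pairing -/
def dot (D x : E → R) : R := ∑ e, D e * x e

/-- even at all faces -/
def ZT (x : E → R) : Prop := ∀ f, ∑ e, ((if M.l e = f then x e else 0) +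
  (if M.r e = f then x e else 0)) = 0

/-- even at all vertices -/
def ZG (D : E → R) : Prop := ∀ v, ∑ e, ((if M.s e = v then D e else 0) +
  (if M.t e = v then D e else 0)) = 0

/-- `D` as function of pairs of faces -/
noncomputable def lift (D : E → R) (f g : F) : R := ∑ e, if s(M.l e, M.r e) = s(f, g) then D e else 0

/-- the edges leaving `W` -/
noncomputable def cut (W : Finset V) : Finset E :=
  univ.filter fun e => (M.s e ∈ W ∧ M.t e ∉ W) ∨ (M.t e ∈ W ∧ M.s e ∉ W)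

/-- cyclic 5-edge-connectivity -/
def Five : Prop := ∀ W : Finset V, 3 ≤ W.card → 3 ≤ Wᶜ.card → 5 ≤ (M.cut W).card

/-- dual cycles of length less than `w` are cuts -/
def Rep (w : ℕ) : Prop := ∀ m, 2 ≤ m → m < w → ∀ (g : ℕ → F) (e : ℕ → E),
  (∀ i < m, ∀ j < m, g i = g j → i = j) → (∀ i < m, ∀ j < m, e i = e j → i = j) →
  g m = g 0 → (∀ i < m, M.OnF (e i) (g i) ∧ M.OnF (e i) (g (i + 1))) →
  ∃ W : Finset V, ∀ e', e' ∈ M.cut W ↔ ∃ i < m, e i = e'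

end Fin

end CMap

end Pool.Agent.H74.OLP
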