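import Pool.Agent.H74.OLP.Defs

/-!
# Locally planar cubic graphs: library
-/

set_option autoImplicit false
set_option linter.unusedSectionVars false
open scoped Classical
open Finset

namespace Pool.Agent.H74.OLP

/-! ## numbers mod 2 -/

theorem R2 (a : R) : a + a = 0 := CharTwo.add_self_eq_zero a

theorem R01 (a : R) : a = 0 ∨ a = 1 := by
  revert a; decide

theorem Rne (a : R) : a ≠ 0 ↔ a = 1 := by
  revert a; decide

theorem Req {a b : R} : a = b ↔ a + b = 0 := by
  revert a b; decide

theorem Rsum {a b : R} (h : a + b = 1) : a = 1 ∨ b = 1 := by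
  revert a b; decide

theorem Rodd (n : ℕ) : (n : R) = 1 ↔ Odd n := ZMod.natCast_eq_one_iff_odd

theorem Reven (n : ℕ) : (n : R) = 0 ↔ Even n := ZMod.natCast_eq_zero_iff_even

/-! ## walks -/

section Graph

variable {F : Type} (T : SimpleGraph F)

@[simp] theorem ws_nil (D : F → F → R) (u : F) : ws T D (.nil : T.Walk u u) = 0 := rfl

@[simp] theorem ws_cons (D : F → F → R) {u v w : F} (h : T.Adj u v) (p : T.Walk v w) :
    ws T D (.cons h p) = D u v + ws T D p := rfl

@[simp] theorem ws_copy (D : F → F → R) {u v u' v' : F} (p : T.Walk u v) (hu : u = u')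
    (hv : v = v') : ws T D (p.copy hu hv) = ws T D p := by
  subst hu; subst hv; rfl

@[simp] theorem ws_append (D : F → F → R) {u v w : F} (p : T.Walk u v) (q : T.Walk v w) :
    ws T D (p.append q) = ws T D p + ws T D q := by
  induction p with
  | nil => simp
  | cons h p ih => simp [ih, add_assoc]

theorem ws_reverse {D : F → F → R} (hD : Sy D) {u v : F} (p : T.Walk u v) :
    ws T D p.reverse = ws T D p := by
  induction p with
  | nil => simp
  | cons h p ih =>
    simp only [SimpleGraph.Walk.reverse_cons, ws_append, ws_cons, ws_nil, ih, add_zero]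
    rw [hD, add_comm]

theorem ws_take_drop (D : F → F → R) {u v : F} (p : T.Walk u v) (n : ℕ) :
    ws T D (p.take n) + ws T D (p.drop n) = ws T D p := by
  rw [← ws_append, SimpleGraph.Walk.append_take_drop_eq]

theorem ws_add (D D' : F → F → R) {u v : F} (p : T.Walk u v) :
    ws T (fun x y => D x y + D' x y) p = ws T D p + ws T D' p := by
  induction p with
  | nil => simp
  | cons h p ih => simp only [ws_cons, ih]; ring

theorem ws_pot (g : F → R) {u v : F} (p : T.Walk u v) :
    ws T (fun x y => g x + g y) p = g u + g v := by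
  induction p with
  | nil => simp [R2]
  | @cons u v w h p ih =>
    simp only [ws_cons, ih]
    linear_combination R2 (g v)

theorem ws_eq_fs (D : F → F → R) {u v : F} (p : T.Walk u v) :
    ws T D p = fs D p.getVert 0 p.length := by
  induction p with
  | nil => simp [fs]
  | @cons u v w h p ih =>
    simp only [ws_cons, ih, fs, SimpleGraph.Walk.length_cons]
    rw [Finset.sum_eq_sum_Ico_succ_bot (by omega : 0 < p.length + 1),
      ← Finset.sum_Ico_add' (fun i => D ((SimpleGraph.Walk.cons h p).getVert i)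
        ((SimpleGraph.Walk.cons h p).getVert (i + 1))) 0 p.length 1]
    simp

theorem fs_split (D : F → F → R) (z : ℕ → F) {a b c : ℕ} (h1 : a ≤ b) (h2 : b ≤ c) :
    fs D z a c = fs D z a b + fs D z b c := (Finset.sum_Ico_consecutive _ h1 h2).symm

theorem fs_self (D : F → F → R) (z : ℕ → F) (a : ℕ) : fs D z a a = 0 := by simp [fs]

theorem fs_one (D : F → F → R) (z : ℕ → F) (a : ℕ) : fs D z a (a + 1) = D (z a) (z (a + 1)) := by
  simp [fs]

theorem fs_succ (D : F → F → R) (z : ℕ → F) {a b : ℕ} (h : a ≤ b) :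
    fs D z a (b + 1) = fs D z a b + D (z b) (z (b + 1)) := Finset.sum_Ico_succ_top h _

theorem fs_congr (D : F → F → R) {z y : ℕ → F} {a b : ℕ} (h : ∀ i, a ≤ i → i ≤ b → z i = y i) :
    fs D z a b = fs D y a b := by
  unfold fs
  refine Finset.sum_congr rfl fun i hi => ?_
  rw [Finset.mem_Ico] at hi
  rw [h i hi.1 hi.2.le, h (i + 1) (by omega) (by omega)]

theorem fs_shift (D : F → F → R) (z : ℕ → F) (a b k : ℕ) :
    fs D (fun i => z (i + k)) a b = fs D z (a + k) (b + k) := by
  unfold fs
  rw [← Finset.sum_Ico_add' (fun i => D (z i) (z (i + 1))) a b k]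
  refine Finset.sum_congr rfl fun i _ => ?_
  show D (z (i + k)) (z (i + 1 + k)) = _
  rw [show i + 1 + k = i + k + 1 by ring]

/-- a walk from a function -/
theorem seg (z : ℕ → F) (a b : ℕ) (hab : a ≤ b) (h : ∀ i, a ≤ i → i < b → T.Adj (z i) (z (i + 1))) :
    ∃ p : T.Walk (z a) (z b), p.length = b - a ∧ (∀ D, ws T D p = fs D z a b) ∧
      ∀ x ∈ p.support, ∃ i, a ≤ i ∧ i ≤ b ∧ x = z i := by
  induction b, hab using Nat.le_induction with
  | base => exact ⟨.nil, by simp, fun D => by simp [fs_self], fun x hx => ⟨a, le_rfl, le_rfl, by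
      simpa using hx⟩⟩
  | succ b hab ih =>
    obtain ⟨p, h1, h2, h3⟩ := ih fun i hi hi' => h i hi (by omega)
    refine ⟨p.append (.cons (h b hab (by omega)) .nil), ?_, fun D => ?_, fun x hx => ?_⟩
    · simp only [SimpleGraph.Walk.length_append, SimpleGraph.Walk.length_cons,
        SimpleGraph.Walk.length_nil, h1]
      omega
    · simp [h2, fs_succ D z hab]
    · rw [SimpleGraph.Walk.mem_support_append_iff] at hx
      rcases hx with hx | hx
      · obtain ⟨i, hi, hi', rfl⟩ := h3 x hx
        exact ⟨i, hi, by omega, rfl⟩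
      · simp only [SimpleGraph.Walk.support_cons, SimpleGraph.Walk.support_nil, List.mem_cons,
          List.not_mem_nil, or_false] at hx
        rcases hx with rfl | rfl
        · exact ⟨b, hab, by omega, rfl⟩
        · exact ⟨b + 1, by omega, le_rfl, rfl⟩

/-- a function from a walk -/
theorem wfun {u v : F} (p : T.Walk u v) : Wf T p.getVert p.length ∧ p.getVert 0 = u ∧
    p.getVert p.length = v ∧ (∀ D, fs D p.getVert 0 p.length = ws T D p) ∧
    ∀ x, x ∈ p.support ↔ x ∈ Im p.getVert p.length := by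
  refine ⟨fun i hi => p.adj_getVert_succ hi, by simp, by simp, fun D => (ws_eq_fs T D p).symm,
    fun x => ?_⟩
  rw [SimpleGraph.Walk.mem_support_iff_exists_getVert]
  constructor
  · rintro ⟨n, rfl, hn⟩
    exact ⟨n, hn, rfl⟩
  · rintro ⟨n, hn, rfl⟩
    exact ⟨n, rfl, hn⟩

/-! ## neighbourhoods -/

theorem Nb_self (n : ℕ) {S : Set F} {x : F} (h : x ∈ S) : x ∈ Nb T n S :=
  ⟨x, h, .nil, by simp⟩

theorem Nb_zero {S : Set F} {x : F} (h : x ∈ Nb T 0 S) : x ∈ S := by
  obtain ⟨s, hs, p, hp⟩ := h
  have := SimpleGraph.Walk.eq_of_length_eq_zero (p := p) (by omega)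
  rwa [← this]

theorem Nb_mono {m n : ℕ} (h : m ≤ n) {S S' : Set F} (hS : S ⊆ S') : Nb T m S ⊆ Nb T n S' :=
  fun _ ⟨s, hs, p, hp⟩ => ⟨s, hS hs, p, hp.trans h⟩

theorem Nb_walk {n : ℕ} {S : Set F} {x y : F} (h : x ∈ Nb T n S) (p : T.Walk x y) {k : ℕ}
    (hk : n + p.length ≤ k) : y ∈ Nb T k S := by
  obtain ⟨s, hs, q, hq⟩ := h
  exact ⟨s, hs, q.append p, by rw [SimpleGraph.Walk.length_append]; omega⟩

theorem Nb_adj {n : ℕ} {S : Set F} {x y : F} (h : x ∈ Nb T n S) (hxy : T.Adj x y) :
    y ∈ Nb T (n + 1) S := Nb_walk T h (.cons hxy .nil) (by simp)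

theorem Nb_Nb {m n k : ℕ} (h : m + n ≤ k) {S : Set F} : Nb T m (Nb T n S) ⊆ Nb T k S := by
  rintro x ⟨s, hs, p, hp⟩
  exact Nb_walk T hs p (by omega)

/-- a walk with both ends in `S` -/
theorem Nb_ends {S : Set F} {t : ℕ} {x y : F} (hx : x ∈ S) (hy : y ∈ S) (p : T.Walk x y)
    (hp : p.length ≤ 2 * t + 1) : ∀ v ∈ p.support, v ∈ Nb T t S := by
  intro v hv
  obtain ⟨n, rfl, hn⟩ := SimpleGraph.Walk.mem_support_iff_exists_getVert.mp hv
  by_cases h : n ≤ t
  · exact ⟨x, hx, p.take n, by rw [SimpleGraph.Walk.take_length]; omega⟩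
  · exact ⟨y, hy, (p.drop n).reverse, by
      rw [SimpleGraph.Walk.length_reverse, SimpleGraph.Walk.drop_length]; omega⟩

/-! ## potentials -/

theorem pot_walk {D : F → F → R} {X : Set F} {g : F → R} (h : Pot T D X g) {u v : F}
    (p : T.Walk u v) (hp : ∀ y ∈ p.support, y ∈ X) : ws T D p = g u + g v := by
  induction p with
  | nil => simp [R2]
  | @cons u v w huv p ih =>
    have h1 : ∀ y ∈ p.support, y ∈ X := fun y hy => hp y (by simp [hy])
    rw [ws_cons, ih h1, h u (hp u (by simp)) v (h1 v (by simp)) huv]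
    linear_combination R2 (g v)

theorem null_of_pot {D : F → F → R} {X : Set F} {g : F → R} (h : Pot T D X g) : Null T D X :=
  fun x p hp => by rw [pot_walk T h p hp, R2]

theorem null_mono {D : F → F → R} {X Y : Set F} (h : Null T D Y) (hXY : X ⊆ Y) : Null T D X :=
  fun x p hp => h x p fun y hy => hXY (hp y hy)

theorem pot_mono {D : F → F → R} {X Y : Set F} {g : F → R} (h : Pot T D Y g) (hXY : X ⊆ Y) :
    Pot T D X g := fun x hx y hy hxy => h x (hXY hx) y (hXY hy) hxy

/-- changing `D` by a potential does not change the sums of closed walks -/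
theorem ws_gauge (D : F → F → R) (g : F → R) {x : F} (p : T.Walk x x) :
    ws T (fun u v => D u v + (g u + g v)) p = ws T D p := by
  rw [ws_add, ws_pot, R2, add_zero]

theorem sy_gauge {D : F → F → R} (h : Sy D) (g : F → R) : Sy fun u v => D u v + (g u + g v) :=
  fun u v => by
    show D u v + (g u + g v) = D v u + (g v + g u)
    rw [h u v, add_comm (g u)]

theorem sh_tri {w : ℕ} (hw : 4 ≤ w) {D : F → F → R} (h : Sh T w D) : Tri T D := by
  refine ⟨h.1, fun x y z h1 h2 h3 => ?_⟩
  have := h.2 x (.cons h1 (.cons h2 (.cons h3 .nil))) (by simp; omega)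
  simpa [add_assoc] using this

end Graph

/-! ## maps -/

section Map

variable {V E F : Type} [Fintype V] [Fintype E] [Fintype F] (M : CMap V E F)

theorem T_adj_of_edge (h : M.OK) (e : E) : M.T.Adj (M.l e) (M.r e) := ⟨h.lr e, e, rfl⟩

theorem lift_sy (D : E → R) : Sy (M.lift D) := fun x y => by
  unfold CMap.lift; rw [Sym2.eq_swap]

theorem lift_add (D D' : E → R) (f g : F) :
    M.lift (fun e => D e + D' e) f g = M.lift D f g + M.lift D' f g := by
  unfold CMap.lift
  rw [← Finset.sum_add_distrib]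
  refine Finset.sum_congr rfl fun e _ => ?_
  split_ifs <;> simp

theorem lift_eq (hs : M.SF) (D : E → R) {f g : F} {e : E} (he : s(M.l e, M.r e) = s(f, g)) :
    M.lift D f g = D e := by
  unfold CMap.lift
  rw [Finset.sum_eq_single e]
  · rw [if_pos he]
  · intro e' _ hne
    rw [if_neg]
    intro h'
    exact hne (hs e' e (h'.trans he.symm))
  · simp

theorem lift_eq' (hs : M.SF) (D : E → R) (e : E) : M.lift D (M.l e) (M.r e) = D e :=
  lift_eq M hs D rfl

theorem dot_add (D D' x : E → R) :
    CMap.dot (fun e => D e + D' e) x = CMap.dot D x + CMap.dot D' x := by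
  unfold CMap.dot
  rw [← Finset.sum_add_distrib]
  exact Finset.sum_congr rfl fun e _ => by ring

theorem cor_add {θ θ' : V → F → R} {x x' D D' : E → R} (h : M.Cor θ x D) (h' : M.Cor θ' x' D') :
    M.Cor (fun v f => θ v f + θ' v f) (fun e => x e + x' e) (fun e => D e + D' e) := by
  intro e
  obtain ⟨a1, a2, a3, a4⟩ := h e
  obtain ⟨b1, b2, b3, b4⟩ := h' e
  refine ⟨?_, ?_, ?_, ?_⟩
  · linear_combination a1 + b1
  · linear_combination a2 + b2
  · linear_combination a3 + b3
  · linear_combination a4 + b4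

theorem cor_pot (g : F → R) :
    M.Cor (fun _ f => g f) (fun _ => 0) (fun e => g (M.l e) + g (M.r e)) :=
  fun e => ⟨R2 _, R2 _, rfl, rfl⟩

end Map

end Pool.Agent.H74.OLP
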