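import Pool.Agent.H74.OLP.Lib

/-!
# Locally planar cubic graphs: targets, part G (graphs)
-/

set_option autoImplicit false
set_option linter.unusedSectionVars false
open scoped Classical
open Finset

namespace Pool.Agent.H74.OLP

/-! ## Walks and potentials -/

/-- POT: existence of potentials -/
def T_POT : Prop := ∀ (F : Type) (T : SimpleGraph F) (D : F → F → R) (X : Set F), Sy D →
  Null T D X → ∃ g, Pot T D X g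

/-- EXT: extension of a potential from base points to their neighbourhood -/
def T_EXT : Prop := ∀ (F : Type) (T : SimpleGraph F) (D : F → F → R) (ι : Type) (p : ι → F)
  (γ : ι → R) (t : ℕ), Sy D →
  (∀ a b (Q : T.Walk (p a) (p b)), Q.length ≤ 2 * t + 1 → ws T D Q = γ a + γ b) →
  ∃ g, Pot T D (Nb T t (Set.range p)) g ∧ ∀ a, g (p a) = γ a

/-- NB0: balls -/
def T_NB0 : Prop := ∀ (F : Type) (T : SimpleGraph F) (D : F → F → R) (w t : ℕ) (f : F),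
  Sh T w D → 2 * t + 1 < w → Null T D (Nb T t {f})

/-- TLP: adding a geodesic -/
def T_TLP : Prop := ∀ (F : Type) (T : SimpleGraph F) (D : F → F → R) (w t t' : ℕ) (S : Set F)
  (g : F → R) (r : ℕ → F) (n : ℕ), Sh T w D → 2 * t' + 1 ≤ t → 2 * t < w →
  Pot T D (Nb T t S) g → Wf T r n → r 0 ∈ S →
  (∀ i ≤ n, ∀ s ∈ S, ∀ p : T.Walk (r i) s, i ≤ p.length) → Null T D (Nb T t' (S ∪ Im r n))

/-- TAI: after adding a geodesic there is a minimal odd walk with ends in the set -/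
def T_TAI : Prop := ∀ (F : Type) (T : SimpleGraph F) (DD : Set (F → F → R)) (ω : F → F → R)
  (w t t' : ℕ) (S : Set F), (∀ x y : F, Nonempty (T.Walk x y)) → (∀ D ∈ DD, Sh T w D) →
  ω ∈ DD → 2 * t' + 1 ≤ t → 2 * t < w → S.Nonempty → Con T S →
  (∀ D ∈ DD, Null T D (Nb T t S)) → ¬ Null T ω Set.univ →
  ∃ (S₁ : Set F) (g : F → R) (z : ℕ → F) (m : ℕ), S ⊆ S₁ ∧ Con T S₁ ∧
    (∀ D ∈ DD, Null T D (Nb T t' S₁)) ∧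
    Pot T (fun u v => ω u v + (g u + g v)) (Nb T t' S₁) (fun _ => 0) ∧
    Mn T S₁ (fun u v => ω u v + (g u + g v)) z m

/-- GEO: geometry of the minimal walk -/
def T_GEO : Prop := ∀ (F : Type) (T : SimpleGraph F) (ω : F → F → R) (S : Set F) (z : ℕ → F)
  (m : ℕ), Sy ω → Mn T S ω z m →
  (∀ i ≤ m, ∀ s ∈ S, ∀ p : T.Walk (z i) s, i ≤ p.length ∨ m - i ≤ p.length) ∧
  (∀ i j, i ≤ j → j ≤ m → ∀ p : T.Walk (z i) (z j), j - i ≤ p.length ∨ i + (m - j) ≤ p.length) ∧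
  ∀ t, Pot T ω (Nb T t S) (fun _ => 0) → 2 * t + 2 ≤ m

/-- GDS: adding the minimal walk -/
def T_GDS : Prop := ∀ (F : Type) (T : SimpleGraph F) (D ω : F → F → R) (w t t' : ℕ) (S : Set F)
  (g : F → R) (z : ℕ → F) (m : ℕ), Sh T w D → Sy ω → 2 * t' + 1 ≤ t → 2 * t < w →
  Mn T S ω z m → Pot T D (Nb T t S) g → fs D z 0 m = g (z 0) + g (z m) →
  Null T D (Nb T t' (S ∪ Im z m))

/-- OTH: potential on the complement of a point of the minimal walk -/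
def T_OTH : Prop := ∀ (F : Type) (T : SimpleGraph F) (D ω : F → F → R) (t β : ℕ) (S : Set F)
  (g : F → R) (z : ℕ → F) (m c : ℕ), Sy D → Sy ω → Mn T S ω z m → 1 ≤ β → β + 1 ≤ t →
  Pot T D (Nb T t S) g → β + 2 ≤ c → c + β + 2 ≤ m →
  ∃ γ, Pot T D ((Nb T β S ∪ Im z m) \ {z c}) γ ∧
    γ (z (c - 1)) = g (z 0) + fs D z 0 (c - 1) ∧ γ (z (c + 1)) = g (z m) + fs D z (c + 1) m

/-- NBH: neighbours of the minimal walk -/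
def T_NBH : Prop := ∀ (F : Type) (T : SimpleGraph F) (ω : F → F → R) (β : ℕ) (S : Set F)
  (z : ℕ → F) (m : ℕ), Sy ω → Mn T S ω z m →
  (∀ c, β + 2 ≤ c → c + β + 2 ≤ m → ∀ y, y ∈ Nb T β S ∪ Im z m → T.Adj (z c) y →
    y = z (c - 1) ∨ y = z (c + 1)) ∧
  (∀ c, β + 3 ≤ c → c + β + 3 ≤ m → ∀ x y, y ∈ Nb T β S ∪ Im z m → T.Adj (z c) x → T.Adj x y →
    ∃ j, c ≤ j + 2 ∧ j ≤ c + 2 ∧ y = z j) ∧
  (∀ c, β + 2 ≤ c → c + β + 2 ≤ m → ∀ x, T.Adj (z c) x → x ∉ Nb T β S) ∧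
  ∀ a L, 3 ≤ a → a + L + 3 ≤ m → IP T L (fun i => z (a + i)) ∧
    ∀ x i j, i ≤ L → j ≤ L → T.Adj x (z (a + i)) → T.Adj x (z (a + j)) → i ≤ j + 2

/-! ## Cycles -/

/-- MCW: a shortest closed walk with sum 1 -/
def T_MCW : Prop := ∀ (F : Type) (T : SimpleGraph F) (D : F → F → R) (X : Set F), Sy D →
  ¬ Null T D X → ∃ (m : ℕ) (u : ℕ → F), 3 ≤ m ∧ Wf T u m ∧ u m = u 0 ∧ fs D u 0 m = 1 ∧
    (∀ i ≤ m, u i ∈ X) ∧ (∀ i < m, ∀ j < m, u i = u j → i = j) ∧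
    (∀ i < m, ∀ j < m, i < j → T.Adj (u i) (u j) → j = i + 1 ∨ (i = 0 ∧ j + 1 = m)) ∧
    ∀ x (p : T.Walk x x), (∀ y ∈ p.support, y ∈ X) → ws T D p = 1 → m ≤ p.length

/-- MKC: a periodic function from a cycle -/
def T_MKC : Prop := ∀ (F : Type) (T : SimpleGraph F) (n : ℕ) (u : ℕ → F), 4 ≤ n →
  (∀ i < n, ∀ j < n, u i = u j → i = j) →
  (∀ i < n, ∀ j < n, (T.Adj (u i) (u j) ↔
    (j = i + 1 ∨ i = j + 1 ∨ (i = 0 ∧ j + 1 = n) ∨ (j = 0 ∧ i + 1 = n)))) →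
  ∃ c : ℤ → F, ICyc T n c ∧ (∀ i : ℕ, i < n → c i = u i) ∧ (∀ i, ∃ j < n, c i = u j) ∧
    ∀ D, cs D n c = fs D u 0 (n - 1) + D (u (n - 1)) (u 0)

/-- SHC: an induced cycle with sum 1 -/
def T_SHC : Prop := ∀ (F : Type) (T : SimpleGraph F) (D : F → F → R) (X : Set F) (w : ℕ),
  4 ≤ w → Sh T w D → ¬ Null T D X →
  ∃ (n : ℕ) (c : ℤ → F), ICyc T n c ∧ w ≤ n ∧ (∀ i, c i ∈ X) ∧ cs D n c = 1

/-- CWK: the closed walk of a cycle -/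
def T_CWK : Prop := ∀ (F : Type) (T : SimpleGraph F) (n : ℕ) (c : ℤ → F), ICyc T n c →
  ∃ p : T.Walk (c 0) (c 0), (∀ x ∈ p.support, ∃ i, x = c i) ∧ ∀ D, ws T D p = cs D n c

/-- CSI: rotation and reflection of a cycle -/
def T_CSI : Prop := ∀ (F : Type) (T : SimpleGraph F) (n : ℕ) (c : ℤ → F), ICyc T n c → ∀ a : ℤ,
  (ICyc T n (fun i => c (i + a)) ∧ ∀ D, cs D n (fun i => c (i + a)) = cs D n c) ∧
  ICyc T n (fun i => c (a - i)) ∧ ∀ D, Sy D → cs D n (fun i => c (a - i)) = cs D n c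

/-- WIN: a cycle runs along a path -/
def T_WIN : Prop := ∀ (F : Type) (T : SimpleGraph F) (n : ℕ) (c : ℤ → F) (z : ℕ → F) (a L : ℕ),
  ICyc T n c → 1 ≤ a → (∃ i, c i = z a) →
  (∀ j < L, ∀ i, T.Adj (z (a + j)) (c i) → c i = z (a + j - 1) ∨ c i = z (a + j + 1)) →
  ∃ c' : ℤ → F, ICyc T n c' ∧ (∀ x, (∃ i, c' i = x) ↔ ∃ i, c i = x) ∧
    (∀ D, Sy D → cs D n c' = cs D n c) ∧ ∀ j : ℕ, j ≤ L → c' j = z (a + j)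

/-- RPL: replacing a part of a cycle -/
def T_RPL : Prop := ∀ (F : Type) (T : SimpleGraph F) (n : ℕ) (c : ℤ → F) (L L' : ℕ) (y : ℕ → F),
  ICyc T n c → 2 ≤ L → L + 2 ≤ n → 4 ≤ n - L + L' → IP T L' y → y 0 = c 0 → y L' = c L →
  (∀ i, 1 ≤ i → i < L' → ∀ j : ℕ, L < j → j < n → ¬ T.Adj (y i) (c j) ∧ y i ≠ c j) →
  ∃ c' : ℤ → F, ICyc T (n - L + L') c' ∧
    (∀ D, cs D (n - L + L') c' + fs D (fun i => c i) 0 L = cs D n c + fs D y 0 L') ∧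
    ∀ i, (∃ j, c' i = c j) ∨ ∃ j ≤ L', c' i = y j

/-! ## The parity lemma -/

/-- SPL: replacing a part of a path -/
def T_SPL : Prop := ∀ (F : Type) (T : SimpleGraph F) (L : ℕ) (z u : ℕ → F) (a b s : ℕ),
  IP T L z → 1 ≤ s → a + 2 ≤ b → b ≤ L →
  (∀ i j, 1 ≤ i → i ≤ s → 1 ≤ j → j ≤ s → u i = u j → i = j) →
  (∀ i j, 1 ≤ i → i ≤ s → 1 ≤ j → j ≤ s → (T.Adj (u i) (u j) ↔ (j = i + 1 ∨ i = j + 1))) →
  (∀ j k, 1 ≤ j → j ≤ s → k ≤ a → (T.Adj (z k) (u j) ↔ (k = a ∧ j = 1)) ∧ u j ≠ z k) →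
  (∀ j k, 1 ≤ j → j ≤ s → b ≤ k → k ≤ L → (T.Adj (z k) (u j) ↔ (k = b ∧ j = s)) ∧ u j ≠ z k) →
  (∀ D, Tri T D → D (z a) (u 1) + fs D u 1 s + D (u s) (z b) = fs D z a b) →
  (∀ j, 1 ≤ j → j ≤ s → (∃ k ≤ L, u j = z k) ∨ ∃ k, 3 ≤ k ∧ k + 3 ≤ L ∧ T.Adj (z k) (u j)) →
  Mv T L z ((s : ℤ) + 1 - ((b : ℤ) - a))

/-- LNK: arcs of a link -/
def T_LNK : Prop := ∀ (F : Type) (T : SimpleGraph F) (f : F) (d : ℕ) (nb : ℤ → F), 5 ≤ d →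
  (∀ i j, nb i = nb j ↔ (d : ℤ) ∣ i - j) →
  (∀ i j, T.Adj (nb i) (nb j) ↔ ((d : ℤ) ∣ i - j - 1 ∨ (d : ℤ) ∣ j - i - 1)) →
  (∀ g, T.Adj f g ↔ ∃ i, g = nb i) → ∀ x y, T.Adj f x → T.Adj f y → x ≠ y → ¬ T.Adj x y →
  ∃ p c q r, Arcs T f x y p c q r

/-- FRM: consistent choice of the two sides of a path -/
def T_FRM : Prop := ∀ (F : Type) (T : SimpleGraph F) (L : ℕ) (z : ℕ → F), Pth T L z →
  (∀ i, 1 ≤ i → i < L → ∃ p c q r, Arcs T (z i) (z (i - 1)) (z (i + 1)) p c q r) →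
  ∃ (p : ℕ → ℕ) (c : ℕ → ℕ → F) (q : ℕ → ℕ) (r : ℕ → ℕ → F), Side T L z p c ∧ Side T L z q r ∧
    (∀ i, 1 ≤ i → i < L → 3 ≤ p i + q i) ∧
    ∀ i j k, 1 ≤ i → i < L → 1 ≤ j → j ≤ p i → 1 ≤ k → k ≤ q i →
      ¬ T.Adj (c i j) (r i k) ∧ c i j ≠ r i k

/-- SDF: facts on the sides of a path -/
def T_SDF : Prop := ∀ (F : Type) (T : SimpleGraph F) (L : ℕ) (z : ℕ → F) (p : ℕ → ℕ)
  (c : ℕ → ℕ → F), Pth T L z → Side T L z p c →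
  (∀ i j k, 1 ≤ i → i < L → 1 ≤ j → j ≤ p i → k < i →
    (T.Adj (z k) (c i j) ↔ (j = 1 ∧ (k + 1 = i ∨ (k + 2 = i ∧ p (i - 1) = 1))))) ∧
  (∀ i j k, 1 ≤ i → i < L → 1 ≤ j → j ≤ p i → i < k → k ≤ L →
    (T.Adj (z k) (c i j) ↔ (j = p i ∧ (k = i + 1 ∨ (k = i + 2 ∧ p (i + 1) = 1))))) ∧
  (∀ i j k, 1 ≤ i → i < L → 1 ≤ j → j ≤ p i → k ≤ L → c i j ≠ z k) ∧
  (∀ i, 1 ≤ i → i + 1 < L → ¬ (p i = 1 ∧ p (i + 1) = 1)) ∧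
  ∀ D, Tri T D → ∀ i, 1 ≤ i → i < L → ∀ a b, 1 ≤ a → a ≤ b → b ≤ p i →
    fs D (c i) a b = D (z i) (c i a) + D (z i) (c i b)

/-- TO: pushing the path over one point -/
def T_TO : Prop := ∀ (F : Type) (T : SimpleGraph F) (L : ℕ) (z : ℕ → F) (p : ℕ → ℕ)
  (c : ℕ → ℕ → F), Pth T L z → Side T L z p c → ∀ i, 5 ≤ i → i + 5 ≤ L →
  Mv T L z ((p i : ℤ) - 1 - (if p (i - 1) = 1 then 1 else 0) - (if p (i + 1) = 1 then 1 else 0))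

/-- TT: pushing the path over two points -/
def T_TT : Prop := ∀ (F : Type) (T : SimpleGraph F) (L : ℕ) (z : ℕ → F) (p : ℕ → ℕ)
  (c : ℕ → ℕ → F), Pth T L z → Side T L z p c → ∀ i, 5 ≤ i → i + 6 ≤ L → 2 ≤ p i →
  2 ≤ p (i + 1) → Mv T L z ((p i : ℤ) + p (i + 1) - 3 - (if p (i - 1) = 1 then 1 else 0) -
    (if p (i + 2) = 1 then 1 else 0))

/-- ZZ: the zigzag -/
def T_ZZ : Prop := ∀ (F : Type) (T : SimpleGraph F) (L : ℕ) (z : ℕ → F) (p : ℕ → ℕ)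
  (c : ℕ → ℕ → F) (q : ℕ → ℕ) (r : ℕ → ℕ → F), Pth T L z → Side T L z p c → Side T L z q r →
  (∀ i j k, 1 ≤ i → i < L → 1 ≤ j → j ≤ p i → 1 ≤ k → k ≤ q i →
      ¬ T.Adj (c i j) (r i k) ∧ c i j ≠ r i k) →
  ∀ i, 8 ≤ i → i + 5 ≤ L → p i = 1 → q (i - 3) = 1 → Mv T L z ((q (i - 2) : ℤ) - 2)

/-- ARI: one of the changes of length is odd -/
def T_ARI : Prop := ∀ (p q : ℕ → ℕ) (P : ℤ → Prop),
  (∀ i, 1 ≤ i → i < 20 → 1 ≤ p i ∧ 1 ≤ q i ∧ 3 ≤ p i + q i) →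
  (∀ i, 1 ≤ i → i + 1 < 20 → ¬ (p i = 1 ∧ p (i + 1) = 1) ∧ ¬ (q i = 1 ∧ q (i + 1) = 1)) →
  (∀ i, 5 ≤ i → i + 5 ≤ 20 →
    P ((p i : ℤ) - 1 - (if p (i - 1) = 1 then 1 else 0) - (if p (i + 1) = 1 then 1 else 0)) ∧
    P ((q i : ℤ) - 1 - (if q (i - 1) = 1 then 1 else 0) - (if q (i + 1) = 1 then 1 else 0))) →
  (∀ i, 5 ≤ i → i + 6 ≤ 20 → 2 ≤ p i → 2 ≤ p (i + 1) →
    P ((p i : ℤ) + p (i + 1) - 3 - (if p (i - 1) = 1 then 1 else 0) -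
      (if p (i + 2) = 1 then 1 else 0))) →
  (∀ i, 5 ≤ i → i + 6 ≤ 20 → 2 ≤ q i → 2 ≤ q (i + 1) →
    P ((q i : ℤ) + q (i + 1) - 3 - (if q (i - 1) = 1 then 1 else 0) -
      (if q (i + 2) = 1 then 1 else 0))) →
  (∀ i, 8 ≤ i → i + 5 ≤ 20 → p i = 1 → q (i - 3) = 1 → P ((q (i - 2) : ℤ) - 2)) →
  ∃ δ, P δ ∧ Odd δ

/-- PAR: the parity lemma -/
def T_PAR : Prop := ∀ (F : Type) (T : SimpleGraph F) (z : ℕ → F), Pth T 20 z →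
  (∀ i, 1 ≤ i → i < 20 → ∃ p c q r, Arcs T (z i) (z (i - 1)) (z (i + 1)) p c q r) →
  ∃ δ, Mv T 20 z δ ∧ Odd δ

/-- ODC: an odd cycle -/
def T_ODC : Prop := ∀ (F : Type) (T : SimpleGraph F) (n : ℕ) (c : ℤ → F) (z : ℕ → F), 26 ≤ n →
  ICyc T n c → (∀ j : ℕ, j ≤ 20 → c j = z j) → Pth T 20 z →
  (∀ i, 1 ≤ i → i < 20 → ∃ p c q r, Arcs T (z i) (z (i - 1)) (z (i + 1)) p c q r) →
  (∀ k, 3 ≤ k → k ≤ 17 → ∀ x, T.Adj (z k) x → ∀ i, (T.Adj x (c i) ∨ x = c i) →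
    ∃ j ≤ 20, c i = z j) →
  ∃ (n' : ℕ) (c' : ℤ → F), ICyc T n' c' ∧ Odd n' ∧ (∀ D, Tri T D → cs D n' c' = cs D n c) ∧
    ∀ i, (∃ j, c' i = c j) ∨ ∃ k, 3 ≤ k ∧ k ≤ 17 ∧ T.Adj (z k) (c' i)

/-! ## One step -/

/-- KE1: the cycle in the boundary of the neighbourhood -/
def T_KE1 : Prop := ∀ (F : Type) (T : SimpleGraph F) (ω : F → F → R) (w t i : ℕ) (S : Set F)
  (z : ℕ → F) (m : ℕ), 4 ≤ w → Sh T w ω → Mn T S ω z m → 3 * i + 2 ≤ t →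
  Pot T ω (Nb T t S) (fun _ => 0) →
  ¬ Null T ω ((Nb T (3 * i + 1) S ∪ Im z m) \ Nb T (3 * i) S) →
  ∃ (n : ℕ) (c : ℤ → F), ICyc T n c ∧ w ≤ n ∧ cs ω n c = 1 ∧
    (∀ x, c x ∈ Nb T (3 * i + 1) S ∪ Im z m ∧ c x ∉ Nb T (3 * i) S) ∧
    ∀ j, 3 * i + 3 ≤ j → j + 3 * i + 3 ≤ m → ∃ x, c x = z j

/-- KE2: the window, and the sums of this cycle -/
def T_KE2 : Prop := ∀ (F : Type) (T : SimpleGraph F) (ω : F → F → R) (t i : ℕ) (S : Set F)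
  (z : ℕ → F) (m n : ℕ) (c : ℤ → F), Sy ω → Mn T S ω z m → 3 * i + 2 ≤ t → 6 * i + 26 ≤ m →
  22 ≤ n → ICyc T n c → (∀ x, c x ∈ Nb T (3 * i + 1) S ∪ Im z m) →
  (∀ j, 3 * i + 3 ≤ j → j + 3 * i + 3 ≤ m → ∃ x, c x = z j) →
  ∃ c' : ℤ → F, ICyc T n c' ∧ (∀ x, (∃ i, c' i = x) ↔ ∃ i, c i = x) ∧
    (∀ D, Sy D → cs D n c' = cs D n c) ∧ (∀ j : ℕ, j ≤ 20 → c' j = z (3 * i + 3 + j)) ∧
    ∀ D g, Sy D → Pot T D (Nb T t S) g → cs D n c' = fs D z 0 m + (g (z 0) + g (z m))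

/-- SGR: one step -/
def T_SGR : Prop := ∀ (F : Type) (T : SimpleGraph F) (DD : Set (F → F → R)) (ω : F → F → R)
  (w t i : ℕ) (S : Set F), (∀ x y : F, Nonempty (T.Walk x y)) → Q4 T →
  (∀ f x y, T.Adj f x → T.Adj f y → x ≠ y → ¬ T.Adj x y → ∃ p c q r, Arcs T f x y p c q r) →
  (∀ D ∈ DD, Sh T w D) → ω ∈ DD → 2 * t < w → 6 * i + 25 ≤ t → S.Nonempty → Con T S →
  (∀ D ∈ DD, Null T D (Nb T t S)) → ¬ Null T ω Set.univ →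
  (∀ A B : Set F, Nb T (3 * i) S ⊆ A → A ⊆ B → (∀ x ∈ A, ∀ y, T.Adj x y → y ∈ B) →
    (∀ D ∈ DD, Null T D A) → ¬ Null T ω B → ¬ Null T ω (B \ A)) →
  ∃ (S' : Set F) (n : ℕ) (c : ℤ → F), S ⊆ S' ∧ Con T S' ∧ ICyc T n c ∧ Odd n ∧ cs ω n c = 1 ∧
    (∀ x, c x ∈ Nb T (3 * i + 2) S' ∧ c x ∉ Nb T (3 * i) S) ∧
    ∀ D ∈ DD, cs D n c = 0 → ∀ t', 4 * t' + 3 ≤ t → Null T D (Nb T t' S')

end Pool.Agent.H74.OLP
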