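import Pool.Agent.H74.OLP.Targets
import Pool.Agent.H69.OC.Targets

/-!
# Locally planar cubic graphs: targets, part M (maps)
-/

set_option autoImplicit false
set_option linter.unusedSectionVars false
open scoped Classical
open Finset

namespace Pool.Agent.H74.OLP

/-! ## Algebra of cubic maps -/

/-- ZGV: the sum at a vertex -/
def T_ZGV : Prop := ∀ (V E F : Type) [Fintype V] [Fintype E] [Fintype F] (M : CMap V E F), M.OK →
  ∀ (D : E → R) (v : V) (a b c : E), a ≠ b → b ≠ c → a ≠ c →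
  (∀ e, M.OnV e v ↔ (e = a ∨ e = b ∨ e = c)) →
  ∑ e, ((if M.s e = v then D e else 0) + (if M.t e = v then D e else 0)) = D a + D b + D c

/-- ZTF: the sum at a face -/
def T_ZTF : Prop := ∀ (V E F : Type) [Fintype V] [Fintype E] [Fintype F] (M : CMap V E F), M.OK →
  ∀ (x : E → R) (f : F), ∑ e, ((if M.l e = f then x e else 0) + (if M.r e = f then x e else 0)) =
    ∑ i ∈ Finset.range (M.d f), x (M.ed f i)

/-- PCY: a periodic function with sum 0 is the difference of a periodic function -/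
def T_PCY : Prop := ∀ (d : ℕ) (x : ℤ → R), 1 ≤ d → (∀ i, x (i + d) = x i) →
  ∑ i ∈ Finset.range d, x i = 0 → ∃ τ : ℤ → R, (∀ i, τ (i + d) = τ i) ∧ ∀ i, τ (i + 1) = τ i + x i

/-- PHI: corner functions of even sets of the dual -/
def T_PHI : Prop := ∀ (V E F : Type) [Fintype V] [Fintype E] [Fintype F] (M : CMap V E F), M.OK →
  ∀ x, M.ZT x → ∃ θ D, M.Cor θ x D ∧ ∀ v f, (∀ e, M.OnF e f → x e = 0) → θ v f = 0

/-- DUA: corner functions of even sets of the graph -/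
def T_DUA : Prop := ∀ (V E F : Type) [Fintype V] [Fintype E] [Fintype F] (M : CMap V E F), M.OK →
  ∀ (A : Set F) (D : E → R), M.ZG D → (∀ e, M.l e ∉ A → M.r e ∉ A → D e = 0) →
  ∃ θ x, M.Cor θ x D ∧ ∀ e, x e ≠ 0 → M.l e ∈ A ∧ M.r e ∈ A

/-- CZZ: corner functions give even sets -/
def T_CZZ : Prop := ∀ (V E F : Type) [Fintype V] [Fintype E] [Fintype F] (M : CMap V E F), M.OK →
  ∀ θ x D, M.Cor θ x D → M.ZT x ∧ M.ZG D

/-- SYM: reciprocity -/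
def T_SYM : Prop := ∀ (V E F : Type) [Fintype V] [Fintype E] [Fintype F] (M : CMap V E F), M.OK →
  ∀ θ x D θ' x' D', M.Cor θ x D → M.Cor θ' x' D' → CMap.dot D x' = CMap.dot D' x

/-- PAI: pairing with potentials and with cuts -/
def T_PAI : Prop := ∀ (V E F : Type) [Fintype V] [Fintype E] [Fintype F] (M : CMap V E F),
  (∀ (x : E → R) (g : F → R), M.ZT x → CMap.dot (fun e => g (M.l e) + g (M.r e)) x = 0) ∧
  (∀ (D : E → R) (W : V → R), M.ZG D → CMap.dot D (fun e => W (M.s e) + W (M.t e)) = 0) ∧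
  ∀ g : F → R, M.OK → M.ZG (fun e => g (M.l e) + g (M.r e))

/-- DIR: directions -/
def T_DIR : Prop := ∀ (V E F : Type) [Fintype V] [Fintype E] [Fintype F] (M : CMap V E F), M.OK →
  (∀ e f, M.OnF e f → M.out f e (M.s e) + M.out f e (M.t e) = 1) ∧
  (∀ f e e' v, M.OnF e f → M.OnF e' f → M.OnV e v → M.OnV e' v → e ≠ e' →
    M.out f e v + M.out f e' v = 1) ∧
  (∀ e, M.D1 e = 1 + M.out (M.l e) e (M.t e) + M.out (M.r e) e (M.t e)) ∧ M.ZG M.D1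

/-- SLF: self intersection -/
def T_SLF : Prop := ∀ (V E F : Type) [Fintype V] [Fintype E] [Fintype F] (M : CMap V E F), M.OK →
  ∀ (X : Set F) θ Φ, (∀ f ∈ X, ∃ e e', e ≠ e' ∧
    ∀ e'', (M.OnF e'' f ∧ M.l e'' ∈ X ∧ M.r e'' ∈ X) ↔ (e'' = e ∨ e'' = e')) →
  M.Cor θ (M.ch X) Φ → CMap.dot Φ (M.ch X) = CMap.dot M.D1 (M.ch X)

/-- COV: the labels of an oriented cycle double cover -/
def T_COV : Prop := ∀ (V E F : Type) [Fintype V] [Fintype E] [Fintype F] (M : CMap V E F), M.OK →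
  ∀ (X : Set F) (σ : V → F → R) (κ : F → R), M.Cor σ (M.ch X) M.D1 →
  (∀ e, M.l e ∈ X → M.r e ∈ X → κ (M.l e) + κ (M.r e) = 1 + M.D1 e) → M.Lab

/-- FON: the boundary of a neighbourhood sees odd closed walks -/
def T_FON : Prop := ∀ (V E F : Type) [Fintype V] [Fintype E] [Fintype F] (M : CMap V E F), M.OK →
  ∀ (n : ℕ) (C Φ : ℕ → E → R) (θ : ℕ → V → F → R), (∀ j < n, M.Cor (θ j) (C j) (Φ j)) →
  (∀ j < n, ∀ l < n, CMap.dot (Φ j) (C l) = if j = l then 1 else 0) →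
  ∀ A B : Set F, (∀ e, M.l e ∈ A → M.r e ∈ B) → (∀ e, M.r e ∈ A → M.l e ∈ B) → A ⊆ B →
  (∀ j < n, ∀ e, C j e ≠ 0 → M.l e ∈ A ∧ M.r e ∈ A) →
  (∀ D, M.ZG D → (∀ j < n, CMap.dot D (C j) = 0) → ∃ g : F → R, ∀ e, M.l e ∈ A → M.r e ∈ A →
    D e = g (M.l e) + g (M.r e)) →
  ∀ ω, M.ZG ω → (∀ j < n, CMap.dot ω (C j) = 0) →
  ∀ y, M.ZT y → (∀ e, y e ≠ 0 → M.l e ∈ B ∧ M.r e ∈ B) → CMap.dot ω y = 1 →
  ∀ h : F → R, (∀ e, M.l e ∈ B \ A → M.r e ∈ B \ A → ω e = h (M.l e) + h (M.r e)) → False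

/-- ECT: the number of edges -/
def T_ECT : Prop := ∀ (V E F : Type) [Fintype V] [Fintype E] [Fintype F] (M : CMap V E F), M.OK →
  2 * Fintype.card E = 3 * Fintype.card V

/-- DIM: the dimension count -/
def T_DIM : Prop := ∀ (V E F : Type) [Fintype V] [Fintype E] [Fintype F] (M : CMap V E F), M.OK →
  Nonempty V → Nonempty F → (∀ W : V → R, (∀ e, W (M.s e) = W (M.t e)) → ∀ u v, W u = W v) →
  (∀ g : F → R, (∀ e, g (M.l e) = g (M.r e)) → ∀ f f', g f = g f') →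
  ∀ k, Fintype.card V + 4 ≤ 2 * Fintype.card F + 2 * k → ∀ (n : ℕ) (ω C : ℕ → E → R),
  (∀ i < n, M.ZG (ω i) ∧ M.ZT (C i) ∧ CMap.dot (ω i) (C i) = 1) →
  (∀ i < n, ∀ j < i, CMap.dot (ω i) (C j) = 0) → n ≤ k

/-! ## Local structure -/

/-- CSZ: small cuts, first part -/
def T_CSZ : Prop := ∀ (V E F : Type) [Fintype V] [Fintype E] [Fintype F] (M : CMap V E F), M.OK →
  M.Par → ∀ W : Finset V, M.cut Wᶜ = M.cut W ∧ (W.card = 0 → M.cut W = ∅) ∧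
  (W.card = 1 → ∃ v, ∀ e, e ∈ M.cut W ↔ M.OnV e v) ∧
  (W.card = 2 → (M.cut W).card ≤ 4 →
    ∃ e₀, ∀ e, e ∈ M.cut W ↔ (e ≠ e₀ ∧ (M.OnV e (M.s e₀) ∨ M.OnV e (M.t e₀))))

/-- CLS: small cuts -/
def T_CLS : Prop := ∀ (V E F : Type) [Fintype V] [Fintype E] [Fintype F] (M : CMap V E F), M.OK →
  M.Par → M.Five → ∀ W : Finset V, (M.cut W).card ≤ 4 → M.cut W = ∅ ∨
  (∃ v, ∀ e, e ∈ M.cut W ↔ M.OnV e v) ∨
  ∃ e₀, ∀ e, e ∈ M.cut W ↔ (e ≠ e₀ ∧ (M.OnV e (M.s e₀) ∨ M.OnV e (M.t e₀)))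

/-- NBE: the edges next to an edge -/
def T_NBE : Prop := ∀ (V E F : Type) [Fintype V] [Fintype E] [Fintype F] (M : CMap V E F), M.OK →
  M.Par → ∀ e₀, ∃ (a b c d : E) (p q : F), a ≠ b ∧ a ≠ c ∧ a ≠ d ∧ b ≠ c ∧ b ≠ d ∧ c ≠ d ∧
  (∀ e, (e ≠ e₀ ∧ (M.OnV e (M.s e₀) ∨ M.OnV e (M.t e₀))) ↔ (e = a ∨ e = b ∨ e = c ∨ e = d)) ∧
  p ≠ M.l e₀ ∧ p ≠ M.r e₀ ∧ q ≠ M.l e₀ ∧ q ≠ M.r e₀ ∧
  (∀ f, M.OnF a f ↔ (f = p ∨ f = M.l e₀)) ∧ (∀ f, M.OnF b f ↔ (f = p ∨ f = M.r e₀)) ∧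
  (∀ f, M.OnF c f ↔ (f = q ∨ f = M.l e₀)) ∧ (∀ f, M.OnF d f ↔ (f = q ∨ f = M.r e₀))

/-- SFF: two faces have at most one common edge -/
def T_SFF : Prop := ∀ (V E F : Type) [Fintype V] [Fintype E] [Fintype F] (M : CMap V E F), M.OK →
  M.Par → M.Five → ∀ w, 3 ≤ w → M.Rep w → M.SF

/-- the three faces of a triangle meet in a vertex -/
def C3 {V E F : Type} (M : CMap V E F) : Prop := ∀ (e₁ e₂ e₃ : E) (x y z : F), x ≠ y → y ≠ z →
  x ≠ z → s(M.l e₁, M.r e₁) = s(x, y) → s(M.l e₂, M.r e₂) = s(y, z) →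
  s(M.l e₃, M.r e₃) = s(z, x) → ∃ v, M.OnV e₁ v ∧ M.OnV e₂ v ∧ M.OnV e₃ v

/-- CTH: triangles -/
def T_CTH : Prop := ∀ (V E F : Type) [Fintype V] [Fintype E] [Fintype F] (M : CMap V E F), M.OK →
  M.Par → M.Five → ∀ w, 4 ≤ w → M.Rep w → C3 M

/-- CFO: cycles of length four have chords -/
def T_CFO : Prop := ∀ (V E F : Type) [Fintype V] [Fintype E] [Fintype F] (M : CMap V E F), M.OK →
  M.Par → M.Five → ∀ w, 5 ≤ w → M.Rep w → Q4 M.T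

/-- DFI: faces have length at least five -/
def T_DFI : Prop := ∀ (V E F : Type) [Fintype V] [Fintype E] [Fintype F] (M : CMap V E F), M.OK →
  M.Par → M.Five → 8 ≤ Fintype.card V → ∀ f, 5 ≤ M.d f

/-- NBR: the neighbours of a face -/
def T_NBR : Prop := ∀ (V E F : Type) [Fintype V] [Fintype E] [Fintype F] (M : CMap V E F), M.OK →
  M.SF → C3 M → (∀ f, 5 ≤ M.d f) → ∀ f, ∃ nb : ℤ → F,
  (∀ i j, nb i = nb j ↔ (M.d f : ℤ) ∣ i - j) ∧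
  (∀ i j, M.T.Adj (nb i) (nb j) ↔ ((M.d f : ℤ) ∣ i - j - 1 ∨ (M.d f : ℤ) ∣ j - i - 1)) ∧
  ∀ g, M.T.Adj f g ↔ ∃ i, g = nb i

/-- CUT: short closed walks -/
def T_CUT : Prop := ∀ (V E F : Type) [Fintype V] [Fintype E] [Fintype F] (M : CMap V E F), M.OK →
  M.SF → ∀ w, M.Rep w → ∀ D, M.ZG D → Sh M.T w (M.lift D)

/-- CNG: the graph is connected -/
def T_CNG : Prop := ∀ (V E F : Type) [Fintype V] [Fintype E] [Fintype F] (M : CMap V E F), M.OK →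
  M.Par → M.Five → ∀ W : V → R, (∀ e, W (M.s e) = W (M.t e)) → ∀ u v, W u = W v

/-- CNF: the dual is connected -/
def T_CNF : Prop := ∀ (V E F : Type) [Fintype V] [Fintype E] [Fintype F] (M : CMap V E F), M.OK →
  (∀ W : V → R, (∀ e, W (M.s e) = W (M.t e)) → ∀ u v, W u = W v) →
  (∀ g : F → R, (∀ e, g (M.l e) = g (M.r e)) → ∀ f f', g f = g f') ∧
  ∀ x y : F, Nonempty (M.T.Walk x y)

/-! ## Walks and cycles in the dual -/

/-- WZT: the even set of a closed walk -/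
def T_WZT : Prop := ∀ (V E F : Type) [Fintype V] [Fintype E] [Fintype F] (M : CMap V E F), M.OK →
  M.SF → ∀ (x : F) (p : M.T.Walk x x), ∃ y : E → R, M.ZT y ∧
  (∀ e, y e ≠ 0 → M.l e ∈ p.support ∧ M.r e ∈ p.support) ∧
  ∀ D, CMap.dot D y = ws M.T (M.lift D) p

/-- CSD: the set of faces of an induced cycle -/
def T_CSD : Prop := ∀ (V E F : Type) [Fintype V] [Fintype E] [Fintype F] (M : CMap V E F), M.OK →
  M.SF → ∀ (n : ℕ) (c : ℤ → F), ICyc M.T n c →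
  (∀ D, cs (M.lift D) n c = CMap.dot D (M.ch (Set.range c))) ∧ M.ZT (M.ch (Set.range c)) ∧
  (∀ f ∈ Set.range c, ∃ e e', e ≠ e' ∧ ∀ e'', (M.OnF e'' f ∧ M.l e'' ∈ Set.range c ∧
    M.r e'' ∈ Set.range c) ↔ (e'' = e ∨ e'' = e')) ∧ n ≤ Fintype.card E

/-- KAP: the function `κ` on an odd cycle -/
def T_KAP : Prop := ∀ (V E F : Type) [Fintype V] [Fintype E] [Fintype F] (M : CMap V E F), M.OK →
  M.SF → ∀ (n : ℕ) (c : ℤ → F), ICyc M.T n c → Odd n → cs (M.lift M.D1) n c = 1 →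
  ∃ κ : F → R, ∀ e, M.l e ∈ Set.range c → M.r e ∈ Set.range c → κ (M.l e) + κ (M.r e) = 1 + M.D1 e

/-- a family of odd induced cycles with odd sum of `D1`, pairwise far from each other -/
structure Fam {V E F : Type} [Fintype V] [Fintype E] [Fintype F] (M : CMap V E F) (n : ℕ)
    (N : ℕ → ℕ) (c : ℕ → ℤ → F) : Prop where
  cyc : ∀ j < n, ICyc M.T (N j) (c j)
  odd : ∀ j < n, Odd (N j)
  one : ∀ j < n, cs (M.lift M.D1) (N j) (c j) = 1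
  far : ∀ i < n, ∀ j < n, i ≠ j → ∀ x y, c i x ≠ c j y ∧ ¬ M.T.Adj (c i x) (c j y)

/-- the corner functions of a family -/
structure FamCor {V E F : Type} [Fintype V] [Fintype E] [Fintype F] (M : CMap V E F) (n : ℕ)
    (c : ℕ → ℤ → F) (θ : ℕ → V → F → R) (Φ : ℕ → E → R) : Prop where
  cor : ∀ j < n, M.Cor (θ j) (M.ch (Set.range (c j))) (Φ j)
  zg : ∀ j < n, M.ZG (Φ j)
  off : ∀ j < n, ∀ e, M.l e ∉ Set.range (c j) → M.r e ∉ Set.range (c j) → Φ j e = 0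
  del : ∀ j < n, ∀ l < n, CMap.dot (Φ j) (M.ch (Set.range (c l))) = if j = l then 1 else 0

/-- FAM: existence of the corner functions -/
def T_FAM : Prop := ∀ (V E F : Type) [Fintype V] [Fintype E] [Fintype F] (M : CMap V E F), M.OK →
  M.SF → ∀ n N c, Fam M n N c → ∃ θ Φ, FamCor M n c θ Φ

/-- the function of a family -/
noncomputable def om {V E F : Type} (M : CMap V E F) (n : ℕ) (Φ : ℕ → E → R) (e : E) : R :=
  M.D1 e + ∑ j ∈ Finset.range n, Φ j e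

/-- OMG: properties of `om` -/
def T_OMG : Prop := ∀ (V E F : Type) [Fintype V] [Fintype E] [Fintype F] (M : CMap V E F), M.OK →
  M.SF → ∀ n N c θ Φ, Fam M n N c → FamCor M n c θ Φ →
  (∀ i ≤ n, M.ZG (om M i Φ)) ∧
  (∀ i ≤ n, ∀ j < i, CMap.dot (om M i Φ) (M.ch (Set.range (c j))) = 0) ∧
  ∀ i < n, CMap.dot (om M i Φ) (M.ch (Set.range (c i))) = 1

/-- NUM: the number of cycles of a family -/
def T_NUM : Prop := ∀ (V E F : Type) [Fintype V] [Fintype E] [Fintype F] (M : CMap V E F), M.OK →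
  M.SF → Nonempty V → Nonempty F →
  (∀ W : V → R, (∀ e, W (M.s e) = W (M.t e)) → ∀ u v, W u = W v) →
  (∀ g : F → R, (∀ e, g (M.l e) = g (M.r e)) → ∀ f f', g f = g f') →
  ∀ k, Fintype.card V + 4 ≤ 2 * Fintype.card F + 2 * k → ∀ n N c, Fam M n N c → n ≤ k

/-- END: the labels, if `om` has a potential -/
def T_END : Prop := ∀ (V E F : Type) [Fintype V] [Fintype E] [Fintype F] (M : CMap V E F), M.OK →
  M.SF → ∀ n N c θ Φ, Fam M n N c → FamCor M n c θ Φ →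
  (∃ g : F → R, ∀ e, om M n Φ e = g (M.l e) + g (M.r e)) → M.Lab

/-- HFA: the form of FON used in the step -/
def T_HFA : Prop := ∀ (V E F : Type) [Fintype V] [Fintype E] [Fintype F] (M : CMap V E F), M.OK →
  M.SF → ∀ n N c θ Φ, Fam M n N c → FamCor M n c θ Φ → ∀ ω, M.ZG ω →
  (∀ j < n, CMap.dot ω (M.ch (Set.range (c j))) = 0) → ∀ A B : Set F,
  (∀ j < n, ∀ x, c j x ∈ A) → A ⊆ B → (∀ x ∈ A, ∀ y, M.T.Adj x y → y ∈ B) →
  (∀ D, M.ZG D → (∀ j < n, cs (M.lift D) (N j) (c j) = 0) → Null M.T (M.lift D) A) →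
  ¬ Null M.T (M.lift ω) B → ¬ Null M.T (M.lift ω) (B \ A)

/-- the state after `n` steps -/
structure St {V E F : Type} [Fintype V] [Fintype E] [Fintype F] (M : CMap V E F) (n t : ℕ)
    (S : Set F) (N : ℕ → ℕ) (c : ℕ → ℤ → F) : Prop extends Fam M n N c where
  ne : S.Nonempty
  con : Con M.T S
  near : ∀ j < n, ∀ x, c j x ∈ Nb M.T (3 * n - 1) S
  good : ∀ D, M.ZG D → (∀ j < n, cs (M.lift D) (N j) (c j) = 0) →
    Null M.T (M.lift D) (Nb M.T t S)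

/-- STP: one step -/
def T_STP : Prop := ∀ (V E F : Type) [Fintype V] [Fintype E] [Fintype F] (M : CMap V E F), M.OK →
  M.SF → Q4 M.T → (∀ f x y, M.T.Adj f x → M.T.Adj f y → x ≠ y → ¬ M.T.Adj x y →
    ∃ p c q r, Arcs M.T f x y p c q r) → (∀ x y : F, Nonempty (M.T.Walk x y)) →
  ∀ w, (∀ D, M.ZG D → Sh M.T w (M.lift D)) → ∀ n t S N c, St M n t S N c → 2 * t < w →
  6 * n + 25 ≤ t → M.Lab ∨ ∃ S' N' c', ∀ t', 4 * t' + 3 ≤ t → St M (n + 1) t' S' N' c'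

/-- MNM: the theorem for cubic maps -/
def T_MNM : Prop := ∀ (V E F : Type) [Fintype V] [Fintype E] [Fintype F] (M : CMap V E F), M.OK →
  M.Par → M.Five → Nonempty F → ∀ k w, M.Rep w → 4 ^ k * (12 * k + 52) ≤ w →
  Fintype.card V + 4 ≤ 2 * Fintype.card F + 2 * k → M.Lab

/-! ## From graphs to maps -/

/-- MCY: the cyclic sequence of a cycle -/
def T_MCY : Prop := ∀ (V : Type) (G : SimpleGraph V) (v : V) (p : G.Walk v v), p.IsCycle →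
  ∃ (d : ℕ) (vt : ℤ → V), 3 ≤ d ∧ (∀ i j, vt i = vt j ↔ (d : ℤ) ∣ i - j) ∧
    (∀ i, G.Adj (vt i) (vt (i + 1))) ∧ (∀ e, e ∈ p.edges ↔ ∃ i, e = s(vt i, vt (i + 1))) ∧
    ∀ i j, s(vt i, vt (i + 1)) = s(vt j, vt (j + 1)) ↔ (d : ℤ) ∣ i - j

/-- MTR: the three cycles at a vertex of a cubic graph with a cycle double cover -/
def T_MTR : Prop := ∀ (V F : Type) [Fintype V] [Fintype F] (G : SimpleGraph V)
  (c : F → Σ v : V, G.Walk v v), (∀ v, Nat.card {u // G.Adj v u} = 3) →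
  (∀ f, (c f).2.IsCycle) → (∀ e ∈ G.edgeSet, Nat.card {f // e ∈ (c f).2.edges} = 2) →
  ∀ v, ∃ (a b d : V) (x y z : F), a ≠ b ∧ b ≠ d ∧ a ≠ d ∧ x ≠ y ∧ y ≠ z ∧ x ≠ z ∧
    (∀ u, G.Adj v u ↔ (u = a ∨ u = b ∨ u = d)) ∧
    (∀ f, s(v, a) ∈ (c f).2.edges ↔ (f = y ∨ f = z)) ∧
    (∀ f, s(v, b) ∈ (c f).2.edges ↔ (f = z ∨ f = x)) ∧
    (∀ f, s(v, d) ∈ (c f).2.edges ↔ (f = x ∨ f = y))

/-- MAP: the cubic map of a cycle double cover -/
def T_MAP : Prop := ∀ (V F : Type) [Fintype V] [Fintype F] (G : SimpleGraph V)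
  (c : F → Σ v : V, G.Walk v v), (∀ v, Nat.card {u // G.Adj v u} = 3) →
  (∀ f, (c f).2.IsCycle) → (∀ e ∈ G.edgeSet, Nat.card {f // e ∈ (c f).2.edges} = 2) →
  ∃ M : CMap V G.edgeSet F, M.OK ∧ (∀ e, s(M.s e, M.t e) = e.1) ∧
    ∀ e f, M.OnF e f ↔ e.1 ∈ (c f).2.edges

/-- LFI: from labels to an oriented cycle double cover -/
def T_LFI : Prop := ∀ (V F : Type) [Fintype V] [Fintype F] (G : SimpleGraph V)
  (M : CMap V G.edgeSet F), M.OK → (∀ e, s(M.s e, M.t e) = e.1) → M.Lab →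
  ∃ lam, (Pool.Agent.H69.OC.dgS G).Cov univ lam

/-- `e` leaves `W` -/
def Crosses {V : Type} (W : Set V) (e : Sym2 V) : Prop := ∃ u v, e = s(u, v) ∧ u ∈ W ∧ v ∉ W

/-- MAIN: the theorem -/
def T_MAIN : Prop := ∀ (V F : Type) [Fintype V] [Fintype F] (G : SimpleGraph V)
  (c : F → Σ v : V, G.Walk v v) (k : ℕ), (∀ v, Nat.card {u // G.Adj v u} = 3) →
  (∀ W : Set V, 3 ≤ W.ncard → 3 ≤ Wᶜ.ncard → 5 ≤ {e ∈ G.edgeSet | Crosses W e}.ncard) →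
  (∀ f, (c f).2.IsCycle) → (∀ e ∈ G.edgeSet, Nat.card {f // e ∈ (c f).2.edges} = 2) →
  Fintype.card V + 4 ≤ 2 * Fintype.card F + 2 * k →
  (∀ m, 2 ≤ m → m < 60 * 5 ^ k → ∀ (g : ℕ → F) (e : ℕ → Sym2 V),
    (∀ i < m, ∀ j < m, g i = g j → i = j) → (∀ i < m, ∀ j < m, e i = e j → i = j) →
    g m = g 0 → (∀ i < m, e i ∈ (c (g i)).2.edges ∧ e i ∈ (c (g (i + 1))).2.edges) →
    ∃ W : Set V, ∀ x ∈ G.edgeSet, Crosses W x ↔ ∃ i < m, e i = x) →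
  ∃ C : List (Σ v : V, G.Walk v v), (∀ c ∈ C, c.2.IsCycle) ∧
    ∀ u v : V, G.Adj u v →
      (C.map (fun c => (c.2.darts.filter (fun d => decide (d.toProd = (u, v)))).length)).sum = 1

end Pool.Agent.H74.OLP
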